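import Pool.Agent.H59.KJ.Alm0

/-!
# Almost products: the large fibres
-/

set_option autoImplicit false

namespace Pool.Agent.H59.KJ

open MeasureTheory Set Filter Topology
open scoped ENNReal InnerProductSpace Pointwise
open Pool.Agent.R754.KG (E un sl Rv un_prob un_int un_lint_ofReal)
open Pool.Agent.R755.KF (CB S_GEO S_MOM BL)
open Pool.Agent.R755.KS (KM bl QC int_cont)
open Pool.Agent.R755.KS.KS9aux (bl_eq)
open Pool.Agent.N483.KM (S_REGC)
open Pool.Agent.R755.KF.Maux (fub vol_fub vol_meas R_meas R_vol sl_fin sl_bd sl_meas kfin bdd)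

variable {N M : ℕ} {F : Set (E N × E M)}

/-- the body has a large part of the volume of the product of its base and its largest fibre -/
structure AP (s : ℝ) (F : Set (E N × E M)) (tm : E M) : Prop where
  mx : ∀ t, Rv F t ≤ Rv F tm
  vol : (volume (Prod.snd '' F)).toReal * Rv F tm ≤ s * (volume F).toReal

/-- the points with large fibres -/
def B1 (s : ℝ) (F : Set (E N × E M)) (tm : E M) : Set (E M) := {t | Rv F tm / (2 * s) ≤ Rv F t}

/-- the part of the body over `B1` -/
def F1 (s : ℝ) (F : Set (E N × E M)) (tm : E M) : Set (E N × E M) := {z | z ∈ F ∧ z.2 ∈ B1 s F tm}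

theorem rv_zero {t : E M} (ht : t ∉ Prod.snd '' F) : Rv F t = 0 := by
  have h1 : sl F t = ∅ := by
    rw [eq_empty_iff_forall_notMem]
    intro x hx
    exact ht ⟨(x, t), hx, rfl⟩
  unfold Rv
  rw [h1, measure_empty, ENNReal.toReal_zero]

theorem AP.pos (h : CB F) {s : ℝ} {tm : E M} (H : AP s F tm) : 0 < Rv F tm := by
  by_contra h0
  have h1 := vol_fub h
  have h2 : ∀ t, volume (sl F t) = 0 := fun t => by
    rw [R_vol h t, ENNReal.ofReal_eq_zero]
    exact (H.mx t).trans (not_lt.1 h0)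
  simp only [h2, lintegral_zero] at h1
  exact h.pos.ne' h1

theorem b1_sub {s : ℝ} (hs : 1 ≤ s) (h : CB F) {tm : E M} (H : AP s F tm) :
    B1 s F tm ⊆ Prod.snd '' F := by
  intro t ht
  by_contra h0
  have h1 := rv_zero h0
  have h2 : Rv F tm / (2 * s) ≤ Rv F t := ht
  have h3 := H.pos h
  have h4 : 0 < Rv F tm / (2 * s) := by positivity
  linarith

theorem b1_closed (s : ℝ) (h : CB F) (tm : E M) : IsClosed (B1 s F tm) := by
  rw [← isOpen_compl_iff, isOpen_iff_mem_nhds]
  intro t ht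
  have h1 : Rv F t < Rv F tm / (2 * s) := not_le.1 ht
  filter_upwards [Pool.Agent.N348.KM.MXF.usc h t h1] with u hu
  exact not_le.2 hu

theorem b1_comp {s : ℝ} (hs : 1 ≤ s) (h : CB F) {tm : E M} (H : AP s F tm) :
    IsCompact (B1 s F tm) :=
  (h.comp.image continuous_snd).of_isClosed_subset (b1_closed s h tm) (b1_sub hs h H)

theorem b1_conv (hG : S_GEO) {s : ℝ} (hs : 1 ≤ s) (h : CB F) {tm : E M} (H : AP s F tm) :
    Convex ℝ (B1 s F tm) := by
  intro a ha b hb p q hp hq hpq
  have hr : 0 < Rv F tm / (2 * s) := by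
    have := H.pos h
    positivity
  have h1 := seg_rv hG h hr ha hb hq (by linarith : q ≤ 1)
  have e : p • a + q • b = a + q • (b - a) := by
    have : p = 1 - q := by linarith
    rw [this, sub_smul, one_smul, smul_sub]
    abel
  show Rv F tm / (2 * s) ≤ Rv F (p • a + q • b)
  rw [e]
  exact h1

theorem f1_comp {s : ℝ} (h : CB F) (tm : E M) : IsCompact (F1 s F tm) := by
  have : F1 s F tm = F ∩ Prod.snd ⁻¹' (B1 s F tm) := rfl
  rw [this]
  exact h.comp.inter_right ((b1_closed s h tm).preimage continuous_snd)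

theorem f1_conv (hG : S_GEO) {s : ℝ} (hs : 1 ≤ s) (h : CB F) {tm : E M} (H : AP s F tm) :
    Convex ℝ (F1 s F tm) := by
  intro z hz w hw p q hp hq hpq
  exact ⟨h.conv hz.1 hw.1 hp hq hpq, b1_conv hG hs h H hz.2 hw.2 hp hq hpq⟩

theorem sl_f1 {s : ℝ} {tm t : E M} (ht : t ∈ B1 s F tm) : sl (F1 s F tm) t = sl F t := by
  ext x
  exact ⟨fun h => h.1, fun h => ⟨h, ht⟩⟩

theorem sl_f1' {s : ℝ} {tm t : E M} (ht : t ∉ B1 s F tm) : sl (F1 s F tm) t = ∅ := by
  rw [eq_empty_iff_forall_notMem]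
  intro x hx
  exact ht hx.2

theorem f1_eq {s : ℝ} (h : CB F) (tm : E M) :
    volume (F1 s F tm) = ∫⁻ t in B1 s F tm, volume (sl F t) := by
  have hm1 : MeasurableSet (B1 s F tm) := (b1_closed s h tm).measurableSet
  rw [Measure.volume_eq_prod, Measure.prod_apply_symm (f1_comp h tm).measurableSet,
    ← lintegral_indicator hm1]
  refine lintegral_congr fun t => ?_
  by_cases ht : t ∈ B1 s F tm
  · rw [indicator_of_mem ht, ← sl_f1 ht]
    rfl
  · rw [indicator_of_notMem ht]
    have e : (fun x => (x, t)) ⁻¹' (F1 s F tm) = ∅ := sl_f1' ht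
    rw [e, measure_empty]

theorem f1_fin {s : ℝ} (h : CB F) (tm : E M) : volume (F1 s F tm) ≠ ⊤ :=
  (f1_comp h tm).measure_lt_top.ne

theorem b1_fin {s : ℝ} (hs : 1 ≤ s) (h : CB F) {tm : E M} (H : AP s F tm) :
    volume (B1 s F tm) ≠ ⊤ := (b1_comp hs h H).measure_lt_top.ne

theorem f1_le {s : ℝ} (hs : 1 ≤ s) (h : CB F) {tm : E M} (H : AP s F tm) :
    (volume (F1 s F tm)).toReal ≤ Rv F tm * (volume (B1 s F tm)).toReal := by
  have h1 : volume (F1 s F tm) ≤ ENNReal.ofReal (Rv F tm) * volume (B1 s F tm) := by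
    rw [f1_eq h tm, ← setLIntegral_const]
    refine setLIntegral_mono' (b1_closed s h tm).measurableSet fun t _ => ?_
    rw [R_vol h]
    exact ENNReal.ofReal_le_ofReal (H.mx t)
  have h2 := ENNReal.toReal_mono (ENNReal.mul_ne_top ENNReal.ofReal_ne_top (b1_fin hs h H)) h1
  rwa [ENNReal.toReal_mul, ENNReal.toReal_ofReal (show 0 ≤ Rv F tm from ENNReal.toReal_nonneg)] at h2

theorem f1_ge {s : ℝ} (hs : 1 ≤ s) (h : CB F) (tm : E M) :
    Rv F tm / (2 * s) * (volume (B1 s F tm)).toReal ≤ (volume (F1 s F tm)).toReal := by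
  have h0 : 0 ≤ Rv F tm / (2 * s) := by
    have : 0 ≤ Rv F tm := ENNReal.toReal_nonneg
    positivity
  have h1 : ENNReal.ofReal (Rv F tm / (2 * s)) * volume (B1 s F tm) ≤ volume (F1 s F tm) := by
    rw [f1_eq h tm, ← setLIntegral_const]
    refine setLIntegral_mono' (b1_closed s h tm).measurableSet fun t ht => ?_
    rw [R_vol h]
    exact ENNReal.ofReal_le_ofReal ht
  have h2 := ENNReal.toReal_mono (f1_fin h tm) h1
  rwa [ENNReal.toReal_mul, ENNReal.toReal_ofReal h0] at h2

/-- most of the volume is over `B1` -/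
theorem f1_vol {s : ℝ} (hs : 1 ≤ s) (h : CB F) {tm : E M} (H : AP s F tm) :
    (volume F).toReal ≤ 2 * (volume (F1 s F tm)).toReal := by
  have hs0 : 0 < s := by linarith
  have hRp := H.pos h
  have hm1 : MeasurableSet (B1 s F tm) := (b1_closed s h tm).measurableSet
  have hBc : IsCompact (Prod.snd '' F) := h.comp.image continuous_snd
  have hV1f := f1_fin (s := s) h tm
  have hBf : volume (Prod.snd '' F) ≠ ⊤ := hBc.measure_lt_top.ne
  have e2 : ∫⁻ t in (B1 s F tm)ᶜ, volume (sl F t) ≤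
      ENNReal.ofReal (Rv F tm / (2 * s)) * volume (Prod.snd '' F) := by
    rw [← lintegral_indicator hm1.compl]
    calc ∫⁻ t, ((B1 s F tm)ᶜ).indicator (fun t => volume (sl F t)) t
        ≤ ∫⁻ t, (Prod.snd '' F).indicator (fun _ => ENNReal.ofReal (Rv F tm / (2 * s))) t := by
          refine lintegral_mono fun t => ?_
          by_cases ht : t ∈ (B1 s F tm)ᶜ
          · rw [indicator_of_mem ht, R_vol h]
            by_cases ht2 : t ∈ Prod.snd '' F
            · rw [indicator_of_mem ht2]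
              exact ENNReal.ofReal_le_ofReal
                (not_le.1 (show ¬ (Rv F tm / (2 * s) ≤ Rv F t) from ht)).le
            · rw [rv_zero ht2]
              simp
          · rw [indicator_of_notMem ht]
            exact zero_le
      _ = _ := by
          rw [lintegral_indicator hBc.measurableSet, setLIntegral_const]
  have e3 : volume F = volume (F1 s F tm) + ∫⁻ t in (B1 s F tm)ᶜ, volume (sl F t) := by
    rw [f1_eq h tm, lintegral_add_compl _ hm1]
    exact vol_fub h
  have e4 : volume F ≤ volume (F1 s F tm) +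
      ENNReal.ofReal (Rv F tm / (2 * s)) * volume (Prod.snd '' F) := by
    calc volume F = volume (F1 s F tm) + ∫⁻ t in (B1 s F tm)ᶜ, volume (sl F t) := e3
      _ ≤ _ := by gcongr
  have e5 := ENNReal.toReal_mono (ENNReal.add_ne_top.2 ⟨hV1f,
    ENNReal.mul_ne_top ENNReal.ofReal_ne_top hBf⟩) e4
  rw [ENNReal.toReal_add hV1f (ENNReal.mul_ne_top ENNReal.ofReal_ne_top hBf), ENNReal.toReal_mul,
    ENNReal.toReal_ofReal (by positivity)] at e5
  have e6 : Rv F tm / (2 * s) * (volume (Prod.snd '' F)).toReal ≤ (volume F).toReal / 2 := by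
    have := H.vol
    rw [div_mul_eq_mul_div, div_le_div_iff₀ (by positivity) (by norm_num)]
    nlinarith
  linarith

theorem cb_f1 (hG : S_GEO) {s : ℝ} (hs : 1 ≤ s) (h : CB F) {tm : E M} (H : AP s F tm) :
    CB (F1 s F tm) := by
  refine ⟨f1_conv hG hs h H, f1_comp h tm, ?_⟩
  have h1 := f1_vol hs h H
  have h2 : 0 < (volume F).toReal := ENNReal.toReal_pos h.pos.ne' (kfin h)
  have h3 : 0 < (volume (F1 s F tm)).toReal := by linarith
  exact (ENNReal.toReal_pos_iff.1 h3).1

theorem b1_pos {s : ℝ} (hs : 1 ≤ s) (h : CB F) {tm : E M} (H : AP s F tm) :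
    0 < (volume (B1 s F tm)).toReal := by
  have h1 := f1_vol hs h H
  have h2 : 0 < (volume F).toReal := ENNReal.toReal_pos h.pos.ne' (kfin h)
  have h3 := f1_le hs h H
  have h4 := H.pos h
  by_contra h0
  have h5 : (volume (B1 s F tm)).toReal = 0 :=
    le_antisymm (not_lt.1 h0) ENNReal.toReal_nonneg
  rw [h5, mul_zero] at h3
  linarith

theorem b1_vol {s : ℝ} (hs : 1 ≤ s) (h : CB F) {tm : E M} (H : AP s F tm) :
    (volume (Prod.snd '' F)).toReal ≤ 2 * s * (volume (B1 s F tm)).toReal := by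
  have h1 := f1_vol hs h H
  have h3 := f1_le hs h H
  have h4 := H.pos h
  have h5 := H.vol
  have hs0 : 0 < s := by linarith
  refine le_of_mul_le_mul_right ?_ h4
  calc (volume (Prod.snd '' F)).toReal * Rv F tm ≤ s * (volume F).toReal := h5
    _ ≤ s * (2 * (Rv F tm * (volume (B1 s F tm)).toReal)) := by
        refine mul_le_mul_of_nonneg_left ?_ hs0.le
        linarith
    _ = _ := by ring

/-! ### the law of the base -/

theorem un_wd {B : Set (E M)} (hB : MeasurableSet B) (h0 : volume B ≠ 0) (h1 : volume B ≠ ⊤) :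
    un B = volume.withDensity (B.indicator fun _ => ENNReal.ofReal (1 / (volume B).toReal)) := by
  have hp : 0 < (volume B).toReal := ENNReal.toReal_pos h0 h1
  rw [withDensity_indicator hB, withDensity_const]
  unfold un
  congr 1
  rw [one_div, ENNReal.ofReal_inv_of_pos hp, ENNReal.ofReal_toReal h1]

theorem bl_le {s : ℝ} (hs : 1 ≤ s) (h : CB F) {tm : E M} (H : AP s F tm) (h1 : CB (F1 s F tm)) :
    bl (F1 s F tm) ≤ ENNReal.ofReal (2 * s) • un (B1 s F tm) := by
  have hs0 : 0 < s := by linarith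
  have hm1 : MeasurableSet (B1 s F tm) := (b1_closed s h tm).measurableSet
  have hp := b1_pos hs h H
  have hp' := (ENNReal.toReal_pos_iff.1 hp).1.ne'
  have hV1 : 0 < (volume (F1 s F tm)).toReal := ENNReal.toReal_pos h1.pos.ne' (f1_fin h tm)
  rw [un_wd hm1 hp' (b1_fin hs h H), bl_eq h1, ← withDensity_smul _ (measurable_const.indicator hm1)]
  refine withDensity_mono (Eventually.of_forall fun t => ?_)
  simp only [Pi.smul_apply, smul_eq_mul]
  by_cases ht : t ∈ B1 s F tm
  · rw [indicator_of_mem ht, ← ENNReal.ofReal_mul (by positivity)]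
    refine ENNReal.ofReal_le_ofReal ?_
    have e : Rv (F1 s F tm) t = Rv F t := by unfold Rv; rw [sl_f1 ht]
    have e2 := H.mx t
    have e3 := f1_ge hs h tm
    rw [e, ← mul_div_assoc, mul_one, div_le_div_iff₀ hV1 hp]
    calc Rv F t * (volume (B1 s F tm)).toReal ≤ Rv F tm * (volume (B1 s F tm)).toReal :=
          mul_le_mul_of_nonneg_right e2 hp.le
      _ = 2 * s * (Rv F tm / (2 * s) * (volume (B1 s F tm)).toReal) := by
          field_simp
      _ ≤ _ := mul_le_mul_of_nonneg_left e3 (by positivity)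
  · have e : Rv (F1 s F tm) t = 0 := by
      unfold Rv
      rw [sl_f1' ht, measure_empty, ENNReal.toReal_zero]
    rw [e, zero_div, ENNReal.ofReal_zero]
    exact zero_le

/-- the uniform law on `B1` is dominated -/
theorem un_le {s c : ℝ} (hs : 1 ≤ s) (h : CB F) {tm : E M} (H : AP s F tm) {G : Set (E N × E M)}
    (hG : CB G) (hFG : ∀ t ∈ B1 s F tm, Rv G t = Rv F t) (hc : 0 ≤ c)
    (hv : (volume G).toReal ≤ c * (Rv F tm * (volume (B1 s F tm)).toReal)) :
    un (B1 s F tm) ≤ ENNReal.ofReal (2 * s * c) • bl G := by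
  have hs0 : 0 < s := by linarith
  have hm1 : MeasurableSet (B1 s F tm) := (b1_closed s h tm).measurableSet
  have hp := b1_pos hs h H
  have hp' := (ENNReal.toReal_pos_iff.1 hp).1.ne'
  have hV1 : 0 < (volume G).toReal := ENNReal.toReal_pos hG.pos.ne' (kfin hG)
  rw [un_wd hm1 hp' (b1_fin hs h H), bl_eq hG,
    ← withDensity_smul _ ((R_meas hG).div_const _).ennreal_ofReal]
  refine withDensity_mono (Eventually.of_forall fun t => ?_)
  simp only [Pi.smul_apply, smul_eq_mul]
  by_cases ht : t ∈ B1 s F tm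
  · rw [indicator_of_mem ht, ← ENNReal.ofReal_mul (by positivity)]
    refine ENNReal.ofReal_le_ofReal ?_
    have e2 : Rv F tm / (2 * s) ≤ Rv F t := ht
    rw [hFG t ht, ← mul_div_assoc, div_le_div_iff₀ hp hV1, one_mul]
    refine hv.trans ?_
    have e3 : Rv F tm ≤ 2 * s * Rv F t := by
      rw [div_le_iff₀ (by positivity)] at e2
      linarith
    calc c * (Rv F tm * (volume (B1 s F tm)).toReal)
        ≤ c * (2 * s * Rv F t * (volume (B1 s F tm)).toReal) := by
          gcongr
      _ = _ := by ring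
  · rw [indicator_of_notMem ht]
    exact zero_le

/-- the second moments of the fibres over `B1` -/
theorem qc_f1 (hG : S_GEO) (hM : S_MOM) (hR : S_REGC) {s : ℝ} (hs : 1 ≤ s) : ∃ Q : ℝ, 0 < Q ∧
    ∀ (N M : ℕ) (F : Set (E N × E M)) (tm : E M), CB F → AP s F tm →
    (∀ t, volume (sl F t) ≠ 0 → ∀ θ : E N, ∫ x, ⟪x, θ⟫_ℝ ∂(un (sl F t)) = 0) →
    QC Q (F1 s F tm) (fun _ => Q) := by
  obtain ⟨C, hC, H⟩ := pair_mom hG hM hR (s := 2 * s) (by linarith)
  have hs0 : 0 < s := by linarith
  refine ⟨C, hC, fun N M F tm h hA hcen => ?_⟩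
  have h1 := cb_f1 hG hs h hA
  have hRp := hA.pos h
  have hbig : ∀ t ∈ B1 s F tm, Rv F tm ≤ 2 * s * Rv F t := by
    intro t ht
    have e2 : Rv F tm / (2 * s) ≤ Rv F t := ht
    rw [div_le_iff₀ (by positivity)] at e2
    linarith
  have hmem : ∀ t, volume (sl (F1 s F tm) t) ≠ 0 → t ∈ B1 s F tm := by
    intro t ht
    by_contra h0
    rw [sl_f1' h0, measure_empty] at ht
    exact ht rfl
  have hpr := Pool.Agent.R755.KS.bl_prob h1
  refine ⟨measurable_const, fun _ => hC.le, integrable_const _, by simp, fun t ht θ => ?_⟩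
  have htB := hmem t ht
  rw [sl_f1 htB]
  have h5 : (∫ x, ⟪x, θ⟫_ℝ ^ 2 ∂(un (sl F t))) / C ≤ ∫ z, ⟪z.1, θ⟫_ℝ ^ 2 ∂(un (F1 s F tm)) := by
    refine av_low h1 (g := fun z => ⟪z.1, θ⟫_ℝ ^ 2) (by fun_prop) (fun z => sq_nonneg _) ?_
    intro u hu
    have huB := hmem u hu
    simp only
    rw [sl_f1 huB, div_le_iff₀ hC, mul_comm]
    refine H N M F u t (Rv F tm) h hRp hA.mx (hbig u huB) (hbig t htB) (hcen t ?_) θ
    rw [← sl_f1 htB]
    exact ht
  rw [div_le_iff₀ hC] at h5
  linarith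

end Pool.Agent.H59.KJ
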