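import Pool.Agent.H59.KJ.Ops
import Pool.Agent.H59.KJ.Alm1

/-!
# Almost products
-/

set_option autoImplicit false

namespace Pool.Agent.H59.KJ

open MeasureTheory Set Filter Topology
open scoped ENNReal InnerProductSpace Pointwise
open Pool.Agent.R754.KG (E un sl Rv un_prob)
open Pool.Agent.R755.KF (CB)
open Pool.Agent.R755.KS (KM bl QC cb_pre un_bdd un_pre law_eq)

/-- comparable convex bodies, one contained in the other -/
theorem half_sub {n : ℕ} {A B : Set (E n)} (hAB : A ⊆ B) (hB : Convex ℝ B) :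
    (1 / 2 : ℝ) • (A + B) ⊆ B := by
  rintro _ ⟨_, ⟨x, hx, y, hy, rfl⟩, rfl⟩
  have := hB (hAB hx) hy (by norm_num : (0 : ℝ) ≤ 1 / 2) (by norm_num : (0 : ℝ) ≤ 1 / 2)
    (by norm_num)
  simpa [smul_add] using this

theorem sub_def {s : ℝ} (hs : 1 ≤ s) {n : ℕ} {A B : Set (E n)} (hAB : A ⊆ B) (hA : volume A ≠ ⊤)
    (hBc : volume B ≠ ⊤) (hB : Convex ℝ B) (hv : (volume B).toReal ≤ s * (volume A).toReal) :
    volume ((1 / 2 : ℝ) • (A + B)) ^ 2 ≤ ENNReal.ofReal s ^ 2 * (volume A * volume B) := by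
  have h1 : volume B ≤ ENNReal.ofReal s * volume A := by
    rw [← ENNReal.ofReal_toReal hBc, ← ENNReal.ofReal_toReal hA, ← ENNReal.ofReal_mul (by linarith)]
    exact ENNReal.ofReal_le_ofReal hv
  have h2 : (1 : ℝ≥0∞) ≤ ENNReal.ofReal s := by
    rw [← ENNReal.ofReal_one]
    exact ENNReal.ofReal_le_ofReal hs
  calc volume ((1 / 2 : ℝ) • (A + B)) ^ 2 ≤ volume B ^ 2 := by
        gcongr
        exact half_sub hAB hB
    _ = volume B * volume B := sq _
    _ ≤ (ENNReal.ofReal s * volume A) * volume B := by gcongr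
    _ = ENNReal.ofReal s * 1 * (volume A * volume B) := by ring
    _ ≤ ENNReal.ofReal s * ENNReal.ofReal s * (volume A * volume B) := by gcongr
    _ = _ := by rw [sq]

/-- from a subset of comparable volume to the body -/
theorem op_sub {s κ0 : ℝ} (hs : 1 ≤ s) (h0 : 0 < κ0) : ∃ κ : ℝ, 0 < κ ∧ ∀ (n : ℕ)
    (A B : Set (E n)), Gd κ0 A → A ⊆ B → IsCompact B → Convex ℝ B →
    (volume B).toReal ≤ s * (volume A).toReal → Gd κ B := by
  obtain ⟨κ, hκ, H⟩ := op_def (s := s) (by linarith) h0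
  refine ⟨κ, hκ, fun n A B hA hAB b1 b2 hv => H n A B hA b1 b2 (hA.int.mono (interior_mono hAB))
    (sub_def hs hAB hA.comp.measure_lt_top.ne b1.measure_lt_top.ne b2 hv)⟩

/-- from a body to a subset of comparable volume -/
theorem op_sub' {s κ0 : ℝ} (hs : 1 ≤ s) (h0 : 0 < κ0) : ∃ κ : ℝ, 0 < κ ∧ ∀ (n : ℕ)
    (A B : Set (E n)), Gd κ0 B → A ⊆ B → IsCompact A → Convex ℝ A → (interior A).Nonempty →
    (volume B).toReal ≤ s * (volume A).toReal → Gd κ A := by
  obtain ⟨κ, hκ, H⟩ := op_def (s := s) (by linarith) h0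
  refine ⟨κ, hκ, fun n A B hB hAB a1 a2 a3 hv => H n B A hB a1 a2 a3 ?_⟩
  rw [add_comm B A, mul_comm (volume B)]
  exact sub_def hs hAB a1.measure_lt_top.ne hB.comp.measure_lt_top.ne hB.conv hv

theorem b1_int {N M : ℕ} {F : Set (E N × E M)} {s : ℝ} (hs : 1 ≤ s) (h : CB F) {tm : E M}
    (H : AP s F tm) : (interior (B1 s F tm)).Nonempty :=
  Pool.Agent.R755.KF.int_of_vol (b1_conv Pool.Agent.R755.KF.geo hs h H)
    (ENNReal.toReal_pos_iff.1 (b1_pos hs h H)).1.ne'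

theorem base_body {N M : ℕ} {F : Set (E N × E M)} (h : CB F) :
    IsCompact (Prod.snd '' F) ∧ Convex ℝ (Prod.snd '' F) :=
  ⟨h.comp.image continuous_snd, h.conv.is_linear_image (LinearMap.snd ℝ (E N) (E M)).isLinear⟩

/-- **the base of an almost product** -/
theorem op_base {s κ0 : ℝ} (hs : 1 ≤ s) (h0 : 0 < κ0) : ∃ κ : ℝ, 0 < κ ∧ ∀ (N M n : ℕ)
    (K : Set (E n)) (e : (E N × E M) ≃ₗ[ℝ] E n) (tm : E M), Gd κ0 K → AP s (e ⁻¹' K) tm →
    Gd κ (Prod.snd '' (e ⁻¹' K)) := by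
  obtain ⟨ε, hε, hε1, H⟩ := op_dom
  obtain ⟨κ1, hκ1, H1⟩ := H (2 * s * 2) κ0 (by linarith) h0
  obtain ⟨κ, hκ, H2⟩ := op_sub (s := 2 * s) (by linarith) hκ1
  refine ⟨κ, hκ, fun N M n K e tm hK hA => ?_⟩
  have h := cb_pre e hK.comp hK.conv hK.int
  obtain ⟨F, hF⟩ : ∃ F, F = e ⁻¹' K := ⟨_, rfl⟩
  rw [← hF] at h hA ⊢
  obtain ⟨b1, b2⟩ := base_body h
  have hb := b1_int hs h hA
  have hg : Gd κ1 (B1 s F tm) := by
    refine H1 n M K (B1 s F tm) ∅ (LinearMap.snd ℝ (E N) (E M) ∘ₗ e.symm.toLinearMap) 0 ?_ hK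
      (b1_comp hs h hA) (b1_conv Pool.Agent.R755.KF.geo hs h hA) hb MeasurableSet.empty (by simp) ?_
    · intro y
      exact ⟨e (0, y), by simp⟩
    · have e1 : Measure.map (fun x => (0 : E M) + (LinearMap.snd ℝ (E N) (E M) ∘ₗ
          e.symm.toLinearMap) x) (un K) = bl F := by
        rw [hF, ← law_eq e (by rw [← hF]; exact h)]
        congr 1
        funext x
        simp
      rw [e1, sdiff_empty]
      refine un_le hs h hA h (fun _ _ => rfl) (by norm_num) ?_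
      have h1 := f1_vol hs h hA
      have h2 := f1_le hs h hA
      linarith
  exact H2 M _ _ hg (b1_sub hs h hA) b1 b2 (b1_vol hs h hA)

/-- the large fibres -/
theorem op_fibres {s κ0 : ℝ} (hs : 1 ≤ s) (h0 : 0 < κ0) : ∃ κ : ℝ, 0 < κ ∧ ∀ (N M : ℕ)
    (F : Set (E N × E M)) (tm t : E M), CB F → AP s F tm → Gd κ0 (sl F tm) → t ∈ B1 s F tm →
    Gd κ (sl F t) := by
  have hs0 : 0 < s := by linarith
  obtain ⟨κ, hκ, H⟩ := op_def (s := 2 * s) (by linarith) h0
  refine ⟨κ, hκ, fun N M F tm t h hA hg ht => ?_⟩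
  have hRp := hA.pos h
  have e2 : Rv F tm / (2 * s) ≤ Rv F t := ht
  have e3 : Rv F tm ≤ 2 * s * Rv F t := by
    rw [div_le_iff₀ (by positivity)] at e2
    linarith
  have hRt : 0 < Rv F t := lt_of_lt_of_le (by positivity) e2
  refine H N _ _ hg (Pool.Agent.R755.KF.sl_comp h t) (Pool.Agent.R755.KF.sl_conv h t)
    (Pool.Agent.R755.KF.int_of_vol (Pool.Agent.R755.KF.sl_conv h t) (vol_ne_of_pos hRt)) ?_
  have e4 : (1 / 2 : ℝ) • (sl F tm + sl F t) ⊆ sl F ((1 / 2 : ℝ) • (tm + t)) := by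
    rintro _ ⟨_, ⟨x, hx, y, hy, rfl⟩, rfl⟩
    have h1 := h.conv (show (x, tm) ∈ F from hx) (show (y, t) ∈ F from hy)
      (by norm_num : (0 : ℝ) ≤ 1 / 2) (by norm_num : (0 : ℝ) ≤ 1 / 2) (by norm_num)
    show ((1 / 2 : ℝ) • (x + y), (1 / 2 : ℝ) • (tm + t)) ∈ F
    rw [smul_add, smul_add]
    exact h1
  have e5 : volume ((1 / 2 : ℝ) • (sl F tm + sl F t)) ≤ ENNReal.ofReal (Rv F tm) := by
    refine (measure_mono e4).trans ?_
    rw [Pool.Agent.R755.KF.Maux.R_vol h]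
    exact ENNReal.ofReal_le_ofReal (hA.mx _)
  calc volume ((1 / 2 : ℝ) • (sl F tm + sl F t)) ^ 2 ≤ ENNReal.ofReal (Rv F tm) ^ 2 := by gcongr
    _ = ENNReal.ofReal (Rv F tm * Rv F tm) := by
        rw [ENNReal.ofReal_mul hRp.le, sq]
    _ ≤ ENNReal.ofReal ((2 * s) ^ 2 * (Rv F tm * Rv F t)) := by
        refine ENNReal.ofReal_le_ofReal ?_
        have e6 : Rv F tm * Rv F tm ≤ Rv F tm * (2 * s * Rv F t) :=
          mul_le_mul_of_nonneg_left e3 hRp.le
        have e7 : 0 < Rv F tm * Rv F t := mul_pos hRp hRt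
        have e8 : 2 * s ≤ (2 * s) ^ 2 := by nlinarith
        nlinarith [mul_le_mul_of_nonneg_right e8 e7.le]
    _ = _ := by
        rw [ENNReal.ofReal_mul (by positivity), ENNReal.ofReal_mul hRp.le, ENNReal.ofReal_pow
          (by positivity), Pool.Agent.R755.KF.Maux.R_vol h, Pool.Agent.R755.KF.Maux.R_vol h]

/-- volumes in other coordinates -/
theorem vol_im {N M n : ℕ} (e : (E N × E M) ≃ₗ[ℝ] E n) {K : Set (E n)} (h : CB (e ⁻¹' K))
    (hK : IsCompact K) (h0 : volume K ≠ 0) {G : Set (E N × E M)} (hG : IsCompact G)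
    (hGF : G ⊆ e ⁻¹' K) {c : ℝ} (hc : 0 < c)
    (hv : (volume (e ⁻¹' K)).toReal ≤ c * (volume G).toReal) :
    (volume K).toReal ≤ c * (volume (e '' G)).toReal := by
  have hme : MeasurableEmbedding e :=
    e.toContinuousLinearEquiv.toHomeomorph.measurableEmbedding
  have hec : Continuous e := e.toContinuousLinearEquiv.continuous
  have h1 : un K (e '' G) = un (e ⁻¹' K) G := by
    rw [un_pre e h, hme.map_apply, preimage_image_eq G e.injective]
  have hGm : MeasurableSet (e '' G) := (hG.image hec).measurableSet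
  unfold un at h1
  rw [Measure.smul_apply, Measure.smul_apply, Measure.restrict_apply hGm,
    Measure.restrict_apply hG.measurableSet, inter_eq_left.2 hGF, inter_eq_left.2 (by
      rintro _ ⟨z, hz, rfl⟩
      exact hGF hz), smul_eq_mul, smul_eq_mul] at h1
  have h2 := congrArg ENNReal.toReal h1
  rw [ENNReal.toReal_mul, ENNReal.toReal_mul, ENNReal.toReal_inv, ENNReal.toReal_inv] at h2
  have p1 : 0 < (volume K).toReal := ENNReal.toReal_pos h0 hK.measure_lt_top.ne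
  have p2 : 0 < (volume (e ⁻¹' K)).toReal :=
    ENNReal.toReal_pos h.pos.ne' h.comp.measure_lt_top.ne
  have h3 : (volume (e '' G)).toReal * (volume (e ⁻¹' K)).toReal =
      (volume G).toReal * (volume K).toReal := by
    field_simp at h2
    linarith
  refine le_of_mul_le_mul_right ?_ p2
  calc (volume K).toReal * (volume (e ⁻¹' K)).toReal
      ≤ (volume K).toReal * (c * (volume G).toReal) := mul_le_mul_of_nonneg_left hv p1.le
    _ = c * ((volume G).toReal * (volume K).toReal) := by ring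
    _ = _ := by rw [← h3]; ring

/-- **almost products with centred fibres** -/
theorem op_alm {s κ0 : ℝ} (hs : 1 ≤ s) (h0 : 0 < κ0) : ∃ κ : ℝ, 0 < κ ∧ ∀ (N M n : ℕ)
    (K : Set (E n)) (e : (E N × E M) ≃ₗ[ℝ] E n) (tm : E M), IsCompact K → Convex ℝ K →
    (interior K).Nonempty → AP s (e ⁻¹' K) tm →
    (∀ t, volume (sl (e ⁻¹' K) t) ≠ 0 → ∀ θ : E N, ∫ x, ⟪x, θ⟫_ℝ ∂(un (sl (e ⁻¹' K) t)) = 0) →
    Gd κ0 (sl (e ⁻¹' K) tm) → Gd κ0 (Prod.snd '' (e ⁻¹' K)) → Gd κ K := by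
  have hs0 : 0 < s := by linarith
  obtain ⟨κ1, hκ1, H1⟩ := op_fibres hs h0
  obtain ⟨κ2, hκ2, H2⟩ := op_sub' (s := 2 * s) (by linarith) h0
  obtain ⟨A, hA0, H3⟩ := km_of_gd hκ2
  obtain ⟨Q, hQ, H4⟩ := qc_f1 Pool.Agent.R755.KF.geo Pool.Agent.R755.KF.mom
    Pool.Agent.N483.KM.regcR hs
  obtain ⟨κ5, hκ5, H5⟩ := op_cent (fun δ => (2 * s) ^ 3 * A (δ / (2 * s))) hQ hκ1
  obtain ⟨κ, hκ, H6⟩ := op_sub (s := 2) (by norm_num) hκ5
  refine ⟨κ, hκ, fun N M n K e tm k1 k2 k3 hAP hcen hf hb => ?_⟩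
  have h := cb_pre e k1 k2 k3
  obtain ⟨F, hF⟩ : ∃ F, F = e ⁻¹' K := ⟨_, rfl⟩
  rw [← hF] at h hAP hcen hf hb
  have h1 := cb_f1 Pool.Agent.R755.KF.geo hs h hAP
  obtain ⟨b1, b2⟩ := base_body h
  have hbi := b1_int hs h hAP
  have hec : Continuous e := e.toContinuousLinearEquiv.continuous
  have hg1 : Gd κ2 (B1 s F tm) := H2 M _ _ hb (b1_sub hs h hAP) (b1_comp hs h hAP)
    (b1_conv Pool.Agent.R755.KF.geo hs h hAP) hbi (b1_vol hs h hAP)
  have hpre : e ⁻¹' (e '' (F1 s F tm)) = F1 s F tm := preimage_image_eq _ e.injective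
  have hmem : ∀ t, volume (sl (F1 s F tm) t) ≠ 0 → t ∈ B1 s F tm := by
    intro t ht
    by_contra h0
    rw [sl_f1' h0, measure_empty] at ht
    exact ht rfl
  have hsub : e '' (F1 s F tm) ⊆ K := by
    rintro _ ⟨z, hz, rfl⟩
    have := hz.1
    rw [hF] at this
    exact this
  have hK1c : IsCompact (e '' (F1 s F tm)) := (f1_comp h tm).image hec
  have hK1v : Convex ℝ (e '' (F1 s F tm)) := h1.conv.is_linear_image e.toLinearMap.isLinear
  have hvol : (volume K).toReal ≤ 2 * (volume (e '' (F1 s F tm))).toReal :=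
    vol_im e (by rw [← hF]; exact h) k1 (Pool.Agent.R755.KF.vol_ne k3) (f1_comp h tm)
      (by rw [← hF]; exact fun z hz => hz.1) two_pos (by rw [← hF]; exact f1_vol hs h hAP)
  have hK1i : (interior (e '' (F1 s F tm))).Nonempty := by
    refine Pool.Agent.R755.KF.int_of_vol hK1v ?_
    intro h0
    rw [h0] at hvol
    have := ENNReal.toReal_pos (Pool.Agent.R755.KF.vol_ne k3) k1.measure_lt_top.ne
    simp at hvol
    linarith
  have hg : Gd κ5 (e '' (F1 s F tm)) := by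
    refine H5 N M n _ e hK1c hK1v hK1i ?_ ?_ ?_ ?_
    · rw [hpre]
      intro t ht
      have htB := hmem t ht
      rw [sl_f1 htB]
      exact H1 N M F tm t h hAP hf htB
    · rw [hpre]
      intro t ht
      have htB := hmem t ht
      rw [sl_f1 htB] at ht ⊢
      exact hcen t ht
    · rw [hpre]
      exact ⟨_, H4 N M F tm h hAP hcen⟩
    · rw [hpre]
      intro δ hδ
      have p1 := Pool.Agent.R755.KS.bl_prob h1
      have p2 : IsProbabilityMeasure (un (B1 s F tm)) :=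
        un_prob (Pool.Agent.R755.KF.vol_ne hbi) (b1_fin hs h hAP)
      obtain ⟨C1, hC1⟩ := Pool.Agent.R755.KS.bl_bdd h1
      obtain ⟨C2, hC2⟩ := un_bdd (b1_comp hs h hAP)
      have q1 : ∀ᵐ x ∂(bl (F1 s F tm)), ‖x‖ ≤ max C1 C2 := by
        filter_upwards [hC1] with x hx
        exact hx.trans (le_max_left _ _)
      have q2 : ∀ᵐ x ∂(un (B1 s F tm)), ‖x‖ ≤ max C1 C2 := by
        filter_upwards [hC2] with x hx
        exact hx.trans (le_max_right _ _)
      have q3 : un (B1 s F tm) ≤ ENNReal.ofReal (2 * s) • bl (F1 s F tm) := by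
        have := un_le (c := 1) hs h hAP h1 (fun t ht => by unfold Rv; rw [sl_f1 ht]) one_pos.le
          (by rw [one_mul]; exact f1_le hs h hAP)
        rwa [mul_one] at this
      exact km_cmp (by positivity) (hA0 _).le q1 q2 (bl_le hs h hAP h1) q3
        (H3 M _ hg1 (δ / (2 * s)) (by positivity))
  exact H6 n _ _ hg hsub k1 k2 hvol

end Pool.Agent.H59.KJ
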