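import Pool.Agent.H59.L.T374d34.N483.KM.SecA
import Pool.Agent.H59.L.T374d34.N348.KM.MXF
import Pool.Agent.H59.L.S8.R755.KF.K1
import Pool.Agent.H59.L.S8.R755.KS.Conv
import Pool.Agent.H59.L.S8.R755.KS.KS9
import Pool.Agent.H59.L.S8.R755.KS.Defs2

/-!
# Almost products: the base, the fibres and their second moments
-/

set_option autoImplicit false

namespace Pool.Agent.H59.KJ

open MeasureTheory Set Filter Topology
open scoped ENNReal InnerProductSpace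
open Pool.Agent.R754.KG (E un sl Rv un_prob un_int un_lint_ofReal)
open Pool.Agent.R755.KF (CB S_GEO S_MOM BL)
open Pool.Agent.R755.KS (KM bl QC int_cont)
open Pool.Agent.R755.KS.KS9aux (bl_eq)
open Pool.Agent.N483.KM (S_REGC)
open Pool.Agent.R755.KF.Maux (fub vol_fub vol_meas R_meas R_vol sl_fin sl_bd sl_meas kfin bdd)

/-- lower bound for an average -/
theorem av_low {N M : ℕ} {F : Set (E N × E M)} (h : CB F) {g : E N × E M → ℝ} (hg : Continuous g)
    (hg0 : ∀ z, 0 ≤ g z) {c : ℝ}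
    (H : ∀ t, volume (sl F t) ≠ 0 → c ≤ ∫ x, g (x, t) ∂(un (sl F t))) :
    c ≤ ∫ z, g z ∂(un F) := by
  have hi : 0 ≤ ∫ z, g z ∂(un F) := integral_nonneg hg0
  rcases le_or_gt c 0 with hc | hc
  · exact hc.trans hi
  rw [← ENNReal.ofReal_le_ofReal_iff hi]
  have h1 : IsFiniteMeasureOnCompacts (volume : Measure (E N × E M)) :=
    inferInstanceAs (IsFiniteMeasureOnCompacts
      (Measure.prod (volume : Measure (E N)) (volume : Measure (E M))))
  refine (ENNReal.mul_le_mul_iff_right h.pos.ne' (kfin h)).1 ?_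
  rw [← un_lint_ofReal h.pos.ne' (bdd h) hg hg0, fub h _ hg.measurable.ennreal_ofReal]
  conv_lhs => rw [vol_fub h, ← lintegral_mul_const _ (vol_meas h)]
  refine lintegral_mono fun t => ?_
  by_cases ht : volume (sl F t) = 0
  · simp [ht]
  · have hgt : Continuous fun x => g (x, t) := hg.comp (by fun_prop)
    have e := un_lint_ofReal ht (sl_bd h t) hgt fun x => hg0 _
    simp only at e ⊢
    rw [e]
    gcongr
    exact H t ht

/-! ### the segment between two fibres -/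

/-- the part of the body over a segment -/
def sg {N M : ℕ} (F : Set (E N × E M)) (a b : E M) : Set (E N × E 1) :=
  {z | 0 ≤ z.2 0 ∧ z.2 0 ≤ 1 ∧ (z.1, a + z.2 0 • (b - a)) ∈ F}

theorem sl_sg {N M : ℕ} (F : Set (E N × E M)) (a b : E M) {y : E 1} (h0 : 0 ≤ y 0)
    (h1 : y 0 ≤ 1) : sl (sg F a b) y = sl F (a + y 0 • (b - a)) := by
  ext x
  constructor
  · intro h
    exact h.2.2
  · intro h
    exact ⟨h0, h1, h⟩

theorem seg_rv (hG : S_GEO) {N M : ℕ} {F : Set (E N × E M)} (h : CB F) {a b : E M} {r : ℝ}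
    (hr : 0 < r) (ha : r ≤ Rv F a) (hb : r ≤ Rv F b) {l : ℝ} (h0 : 0 ≤ l) (h1 : l ≤ 1) :
    r ≤ Rv F (a + l • (b - a)) := by
  rcases h0.eq_or_lt with h0 | h0
  · rw [← h0, zero_smul, add_zero]
    exact ha
  rcases h1.eq_or_lt with h1 | h1
  · rw [h1, one_smul, add_sub_cancel]
    exact hb
  have h2 := hG N M F h a b l h0 h1
  have e : (1 - l) • a + l • b = a + l • (b - a) := by
    rw [sub_smul, one_smul, smul_sub]
    abel
  rw [e] at h2
  refine le_trans ?_ h2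
  calc r = r ^ (1 - l) * r ^ l := by
        rw [← Real.rpow_add hr, sub_add_cancel, Real.rpow_one]
    _ ≤ Rv F a ^ (1 - l) * Rv F b ^ l := by
        have h3 : 0 ≤ Rv F a := hr.le.trans ha
        gcongr

theorem cb_sg (hG : S_GEO) {N M : ℕ} {F : Set (E N × E M)} (h : CB F) {a b : E M} {r : ℝ}
    (hr : 0 < r) (ha : r ≤ Rv F a) (hb : r ≤ Rv F b) : CB (sg F a b) := by
  have hcl : IsClosed (sg F a b) := by
    have e : sg F a b = {z : E N × E 1 | 0 ≤ z.2 0} ∩ ({z | z.2 0 ≤ 1} ∩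
        (fun z : E N × E 1 => (z.1, a + z.2 0 • (b - a))) ⁻¹' F) := rfl
    rw [e]
    refine (isClosed_le continuous_const (by fun_prop)).inter
      ((isClosed_le (by fun_prop) continuous_const).inter ?_)
    exact h.comp.isClosed.preimage (by fun_prop)
  have hbd : Bornology.IsBounded (sg F a b) := by
    refine ((bdd h).image_fst.prod (Metric.isBounded_closedBall (x := (0 : E 1)) (r := 1))).subset ?_
    intro z hz
    refine ⟨⟨_, hz.2.2, rfl⟩, ?_⟩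
    rw [Metric.mem_closedBall, dist_zero_right, EuclideanSpace.norm_eq, Fin.sum_univ_one,
      Real.norm_eq_abs, sq_abs, Real.sqrt_sq_eq_abs, abs_of_nonneg hz.1]
    exact hz.2.1
  have hconv : Convex ℝ (sg F a b) := by
    intro z hz w hw p q hp hq hpq
    refine ⟨?_, ?_, ?_⟩
    · show 0 ≤ p * z.2 0 + q * w.2 0
      have := hz.1
      have := hw.1
      positivity
    · show p * z.2 0 + q * w.2 0 ≤ 1
      calc p * z.2 0 + q * w.2 0 ≤ p * 1 + q * 1 := by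
            have := hz.2.1
            have := hw.2.1
            gcongr
        _ = 1 := by rw [mul_one, mul_one, hpq]
    · have h1 := h.conv hz.2.2 hw.2.2 hp hq hpq
      have e : p • (z.1, a + z.2 0 • (b - a)) + q • (w.1, a + w.2 0 • (b - a)) =
          ((p • z + q • w).1, a + (p • z + q • w).2 0 • (b - a)) := by
        refine Prod.ext rfl ?_
        show p • (a + z.2 0 • (b - a)) + q • (a + w.2 0 • (b - a)) =
          a + (p * z.2 0 + q * w.2 0) • (b - a)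
        have e1 : a = p • a + q • a := by rw [← add_smul, hpq, one_smul]
        conv_rhs => rw [e1]
        rw [smul_add, smul_add, smul_smul, smul_smul, add_smul, ← e1]
        have e2 : p • a + p • (z.2 0) • (b - a) + (q • a + q • (w.2 0) • (b - a)) =
          (p • a + q • a) + (p • (z.2 0) • (b - a) + q • (w.2 0) • (b - a)) := by abel
        simp only [smul_smul] at e2 ⊢
        rw [e2, ← e1]
      rw [e] at h1
      exact h1
  refine ⟨hconv, Metric.isCompact_of_isClosed_isBounded hcl hbd, ?_⟩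
  have hm : MeasurableSet (sg F a b) := hcl.measurableSet
  have e : volume (sg F a b) = ∫⁻ y, volume (sl (sg F a b) y) := by
    rw [Measure.volume_eq_prod, Measure.prod_apply_symm hm]
    rfl
  obtain ⟨Q, hQ⟩ : ∃ Q : Set (E 1), Q = {y | 0 < y 0 ∧ y 0 < 1} := ⟨_, rfl⟩
  have hQo : IsOpen Q := by
    rw [hQ]
    have hc : Continuous fun y : E 1 => y 0 := by fun_prop
    exact (isOpen_lt continuous_const hc).inter (isOpen_lt hc continuous_const)
  have hQn : Q.Nonempty := by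
    refine ⟨EuclideanSpace.single 0 (1 / 2), ?_⟩
    rw [hQ]
    show (0 : ℝ) < (EuclideanSpace.single (0 : Fin 1) (1 / 2 : ℝ)) 0 ∧
      (EuclideanSpace.single (0 : Fin 1) (1 / 2 : ℝ)) 0 < 1
    simp
    norm_num
  have hQp : 0 < volume Q := hQo.measure_pos volume hQn
  rw [e]
  have h2 : ENNReal.ofReal r * volume Q ≤ ∫⁻ y, volume (sl (sg F a b) y) := by
    calc ENNReal.ofReal r * volume Q = ∫⁻ _ in Q, ENNReal.ofReal r := by
          rw [setLIntegral_const]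
      _ ≤ ∫⁻ y in Q, volume (sl (sg F a b) y) := by
          refine setLIntegral_mono' hQo.measurableSet fun y hy => ?_
          rw [hQ] at hy
          rw [sl_sg F a b hy.1.le hy.2.le, R_vol h]
          exact ENNReal.ofReal_le_ofReal (seg_rv hG h hr ha hb hy.1.le hy.2.le)
      _ ≤ _ := setLIntegral_le_lintegral _ _
  refine lt_of_lt_of_le ?_ h2
  exact ENNReal.mul_pos (ENNReal.ofReal_pos.2 hr).ne' hQp.ne'

/-- the second moments of two large centred fibres are comparable -/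
theorem pair_mom (hG : S_GEO) (hM : S_MOM) (hR : S_REGC) {s : ℝ} (hs : 1 ≤ s) : ∃ C : ℝ, 0 < C ∧
    ∀ (N M : ℕ) (F : Set (E N × E M)) (a b : E M) (R : ℝ), CB F → 0 < R → (∀ t, Rv F t ≤ R) →
    R ≤ s * Rv F a → R ≤ s * Rv F b → (∀ θ : E N, ∫ x, ⟪x, θ⟫_ℝ ∂(un (sl F b)) = 0) →
    ∀ θ : E N, ∫ x, ⟪x, θ⟫_ℝ ^ 2 ∂(un (sl F b)) ≤ C * ∫ x, ⟪x, θ⟫_ℝ ^ 2 ∂(un (sl F a)) := by
  have hs0 : 0 < s := by linarith
  obtain ⟨C0, hC0, H⟩ := hR 1 s hs
  refine ⟨36 * 4 ^ 1 / (1 / s) * C0, by positivity, ?_⟩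
  intro N M F a b R h hRp hmax ha hb hcen θ
  have hr : 0 < R / s := by positivity
  have ha' : R / s ≤ Rv F a := by rw [div_le_iff₀ hs0]; linarith
  have hb' : R / s ≤ Rv F b := by rw [div_le_iff₀ hs0]; linarith
  have hC := cb_sg hG h hr ha' hb'
  obtain ⟨G, hGd⟩ : ∃ G, G = sg F a b := ⟨_, rfl⟩
  have e0 : sl G (0 : E 1) = sl F a := by
    rw [hGd, sl_sg F a b (y := 0) (by simp) (by simp)]
    simp
  obtain ⟨e, he⟩ : ∃ e : E 1, e = EuclideanSpace.single 0 1 := ⟨_, rfl⟩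
  have he0 : e 0 = 1 := by rw [he]; simp
  have hen : ‖e‖ = 1 := by rw [he]; simp
  have hee : ⟪e, e⟫_ℝ = 1 := by rw [real_inner_self_eq_norm_sq, hen, one_pow]
  have e1 : sl G e = sl F b := by
    rw [hGd, sl_sg F a b (y := e) (by rw [he0]; exact zero_le_one) (by rw [he0]), he0, one_smul,
      add_sub_cancel]
  rw [← hGd] at hC
  have hRG : ∀ y, Rv G y ≤ R := by
    intro y
    by_cases hy : 0 ≤ y 0 ∧ y 0 ≤ 1
    · unfold Rv
      rw [hGd, sl_sg F a b hy.1 hy.2]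
      exact hmax _
    · have h1 : sl G y = ∅ := by
        rw [eq_empty_iff_forall_notMem]
        intro x hx
        rw [hGd] at hx
        exact hy ⟨hx.1, hx.2.1⟩
      unfold Rv
      rw [h1, measure_empty, ENNReal.toReal_zero]
      exact hRp.le
  have hR0 : Rv G 0 = Rv F a := by unfold Rv; rw [e0]
  have hR1 : Rv G e = Rv F b := by unfold Rv; rw [e1]
  obtain ⟨P, hP⟩ : ∃ P : E N →ₗ[ℝ] E 1, ∀ x, P x = ⟪x, θ⟫_ℝ • e := by
    refine ⟨{ toFun := fun x => ⟪x, θ⟫_ℝ • e, map_add' := ?_, map_smul' := ?_ }, fun x => rfl⟩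
    · intro x y
      rw [inner_add_left, add_smul]
    · intro c x
      rw [real_inner_smul_left, mul_smul, RingHom.id_apply]
  obtain ⟨ma, hma⟩ : ∃ ma : ℝ, ma = ∫ x, ⟪x, θ⟫_ℝ ^ 2 ∂(un (sl F a)) := ⟨_, rfl⟩
  have hma0 : 0 ≤ ma := by rw [hma]; exact integral_nonneg fun x => sq_nonneg _
  obtain ⟨B, hB⟩ := H N 1 G 0 hC (by rw [hR0]; exact lt_of_lt_of_le hr ha')
    (fun t => (hRG t).trans (by rw [hR0]; exact ha)) P ma hma0 (by
      intro v hv
      rw [e0]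
      have h1 : ⟪e, v⟫_ℝ ^ 2 ≤ 1 := by
        have h2 := abs_real_inner_le_norm e v
        rw [hen, hv, one_mul] at h2
        rw [← sq_abs]
        exact pow_le_one₀ (abs_nonneg _) h2
      have h2 : ∀ x, ⟪P x, v⟫_ℝ = ⟪e, v⟫_ℝ * ⟪x, θ⟫_ℝ := fun x => by
        rw [hP, real_inner_smul_left, mul_comm]
      simp only [h2, mul_pow, integral_const_mul]
      rw [← hma]
      have h3 : ⟪e, v⟫_ℝ ^ 2 * ma ≤ 1 * ma := mul_le_mul_of_nonneg_right h1 hma0
      have h4 : 0 ≤ ⟪e, v⟫_ℝ ^ 2 * (∫ x, ⟪x, θ⟫_ℝ ∂(un (sl F a))) ^ 2 := by positivity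
      linarith)
  obtain ⟨T, hT⟩ : ∃ T : E N × E 1 →ₗ[ℝ] E 1, ∀ z, T z = P z.1 - B z.2 :=
    ⟨P ∘ₗ LinearMap.fst ℝ _ _ - B ∘ₗ LinearMap.snd ℝ _ _, fun z => rfl⟩
  have h5 := (Pool.Agent.N483.KM.fib_mom hM hC T (s := C0 * ma) (S := R) (ε := 1 / s)
    (by positivity) hRp (by positivity) hRG (by
      intro v hv
      simp only [hT]
      exact hB v hv) (t := e) (by
      rw [hR1, one_div, inv_mul_le_iff₀ hs0]
      exact hb) e).1
  have hpb : 0 < Rv F b := lt_of_lt_of_le hr hb'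
  have hpr := Pool.Agent.N483.KM.sv_prob h hpb
  have c1 : Continuous fun y : E 1 => ⟪y, e⟫_ℝ := by fun_prop
  have c1' : Continuous fun y : E 1 => ⟪y, e⟫_ℝ ^ 2 := by fun_prop
  rw [Pool.Agent.N483.KM.lw_int T e c1', Pool.Agent.N483.KM.lw_int T e c1, e1, hen] at h5
  obtain ⟨β, hβ⟩ : ∃ β : ℝ, β = ⟪B e, e⟫_ℝ := ⟨_, rfl⟩
  have h6 : ∀ x, ⟪T (x, e), e⟫_ℝ = ⟪x, θ⟫_ℝ - β := fun x => by
    rw [hT, inner_sub_left, hP, real_inner_smul_left, hee, mul_one, hβ]
  simp only [h6] at h5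
  have c2 : Continuous fun x : E N => ⟪x, θ⟫_ℝ := by fun_prop
  have i1 := Pool.Agent.N483.KM.sv_int h hpb c2
  have h7 := Pool.Agent.N483.KM.var_le_mom i1 (Pool.Agent.N483.KM.sv_int h hpb (c2.pow 2)) β
  have h8 : ∫ x, (⟪x, θ⟫_ℝ - β) ∂(un (sl F b)) = -β := by
    rw [integral_sub i1 (integrable_const _), hcen θ]
    simp
  rw [hcen θ] at h7
  rw [h8, ← h7] at h5
  rw [← hma]
  calc ∫ x, ⟪x, θ⟫_ℝ ^ 2 ∂(un (sl F b)) ≤ 36 * 4 ^ 1 / (1 / s) * (C0 * ma) * 1 ^ 2 := by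
        linarith
    _ = _ := by ring

/-! ### change of measure -/

/-- a weak Poincaré inequality for a comparable measure -/
theorem km_cmp {c A δ : ℝ} (hc : 0 < c) (hA : 0 ≤ A) {M : ℕ} {μ ν : Measure (E M)}
    [IsProbabilityMeasure μ] [IsProbabilityMeasure ν] {B : ℝ} (hBμ : ∀ᵐ x ∂μ, ‖x‖ ≤ B)
    (hBν : ∀ᵐ x ∂ν, ‖x‖ ≤ B) (h1 : μ ≤ ENNReal.ofReal c • ν) (h2 : ν ≤ ENNReal.ofReal c • μ)
    (h : KM A (δ / c) ν) : KM (c ^ 3 * A) δ μ := by
  have hmn : ∀ f : E M → ℝ, Continuous f → (∀ x, 0 ≤ f x) → ∫ x, f x ∂μ ≤ c * ∫ x, f x ∂ν := by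
    intro f hf hf0
    have i : Integrable f (ENNReal.ofReal c • ν) :=
      (int_cont hBν hf).smul_measure ENNReal.ofReal_ne_top
    have := integral_mono_measure h1 (Eventually.of_forall hf0) i
    rwa [integral_smul_measure, ENNReal.toReal_ofReal hc.le, smul_eq_mul] at this
  have hnm : ∀ f : E M → ℝ, Continuous f → (∀ x, 0 ≤ f x) → ∫ x, f x ∂ν ≤ c * ∫ x, f x ∂μ := by
    intro f hf hf0
    have i : Integrable f (ENNReal.ofReal c • μ) :=
      (int_cont hBμ hf).smul_measure ENNReal.ofReal_ne_top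
    have := integral_mono_measure h2 (Eventually.of_forall hf0) i
    rwa [integral_smul_measure, ENNReal.toReal_ofReal hc.le, smul_eq_mul] at this
  -- variances
  have hvn : ∀ f : E M → ℝ, Continuous f → (∫ x, f x ^ 2 ∂ν) - (∫ x, f x ∂ν) ^ 2 ≤
      c * ((∫ x, f x ^ 2 ∂μ) - (∫ x, f x ∂μ) ^ 2) := by
    intro f hf
    have e1 := Pool.Agent.N483.KM.var_le_mom (int_cont hBν hf) (int_cont hBν (hf.pow 2))
      (∫ x, f x ∂μ)
    have e2 := Pool.Agent.N483.KM.var_le_mom (int_cont hBμ hf) (int_cont hBμ (hf.pow 2))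
      (∫ x, f x ∂μ)
    have e3 := hnm (fun x => (f x - ∫ x, f x ∂μ) ^ 2) ((hf.sub continuous_const).pow 2)
      fun x => sq_nonneg _
    rw [sub_self] at e2
    have e4 := sq_nonneg ((∫ x, f x ∂ν) - ∫ x, f x ∂μ)
    have e5 : c * ∫ x, (f x - ∫ x, f x ∂μ) ^ 2 ∂μ =
        c * ((∫ x, f x ^ 2 ∂μ) - (∫ x, f x ∂μ) ^ 2) := by
      rw [← e2]
      ring
    linarith
  have hvm : ∀ f : E M → ℝ, Continuous f → (∫ x, f x ^ 2 ∂μ) - (∫ x, f x ∂μ) ^ 2 ≤
      c * ((∫ x, f x ^ 2 ∂ν) - (∫ x, f x ∂ν) ^ 2) := by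
    intro f hf
    have e1 := Pool.Agent.N483.KM.var_le_mom (int_cont hBμ hf) (int_cont hBμ (hf.pow 2))
      (∫ x, f x ∂ν)
    have e2 := Pool.Agent.N483.KM.var_le_mom (int_cont hBν hf) (int_cont hBν (hf.pow 2))
      (∫ x, f x ∂ν)
    have e3 := hmn (fun x => (f x - ∫ x, f x ∂ν) ^ 2) ((hf.sub continuous_const).pow 2)
      fun x => sq_nonneg _
    rw [sub_self] at e2
    have e4 := sq_nonneg ((∫ x, f x ∂μ) - ∫ x, f x ∂ν)
    have e5 : c * ∫ x, (f x - ∫ x, f x ∂ν) ^ 2 ∂ν =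
        c * ((∫ x, f x ^ 2 ∂ν) - (∫ x, f x ∂ν) ^ 2) := by
      rw [← e2]
      ring
    linarith
  intro k P s hs hP C v hv hv1
  have hPc : Continuous P := P.continuous_of_finiteDimensional
  have hd : Continuous (fderiv ℝ v) := hv.c1.continuous_fderiv one_ne_zero
  have k1 := h k P (c * s) (by positivity) (fun θ hθ => by
    have a1 := hvn (fun x => ⟪P x, θ⟫_ℝ) (by fun_prop)
    have a2 := hP θ hθ
    have a3 : c * ((∫ x, ⟪P x, θ⟫_ℝ ^ 2 ∂μ) - (∫ x, ⟪P x, θ⟫_ℝ ∂μ) ^ 2) ≤ c * s :=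
      mul_le_mul_of_nonneg_left a2 hc.le
    exact a1.trans a3) C v hv hv1
  have k2 := hvm (fun x => v (P x)) (hv.c1.continuous.comp hPc)
  have k3 := hnm (fun x => ‖fderiv ℝ v (P x)‖ ^ 2) ((hd.comp hPc).norm.pow 2) fun x => sq_nonneg _
  calc (∫ x, v (P x) ^ 2 ∂μ) - (∫ x, v (P x) ∂μ) ^ 2
      ≤ c * ((∫ x, v (P x) ^ 2 ∂ν) - (∫ x, v (P x) ∂ν) ^ 2) := k2
    _ ≤ c * (δ / c + A * (c * s) * ∫ x, ‖fderiv ℝ v (P x)‖ ^ 2 ∂ν) :=
        mul_le_mul_of_nonneg_left k1 hc.le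
    _ ≤ c * (δ / c + A * (c * s) * (c * ∫ x, ‖fderiv ℝ v (P x)‖ ^ 2 ∂μ)) := by
        gcongr
    _ = δ + c ^ 3 * A * s * ∫ x, ‖fderiv ℝ v (P x)‖ ^ 2 ∂μ := by
        field_simp

end Pool.Agent.H59.KJ
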