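import Pool.Agent.H59.L.T374d34.N483.KM.All
import Pool.Agent.H59.L.T374d34.N348.KM.MXF
import Pool.Agent.H59.L.T374d34.N483.KM.F2F
import Pool.Agent.H59.L.T374d34.N27.KM.CCL
import Pool.Agent.H59.L.T374d34.N327.KM.BM1
import Pool.Agent.H59.L.T374d34.N738.KM.BMX
import Pool.Agent.H59.L.S8.R755.KS.KS1
import Pool.Agent.H59.L.S8.R755.KS.KS2
import Pool.Agent.H59.L.S8.R755.KS.KS3
import Pool.Agent.H59.L.S8.R755.KS.KS4
import Pool.Agent.H59.L.S8.R755.KS.KS5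
import Pool.Agent.H59.L.S8.R755.KS.KS6b
import Pool.Agent.H59.L.S8.R755.KS.KS8
import Pool.Agent.H59.L.S8.R755.KS.KS9
import Pool.Agent.H59.L.S8.R755.KS.KS10
import Pool.Agent.H59.L.S8.R755.KS.Conv
import Pool.Agent.H59.L.S8.R755.KS.Cls
import Pool.Agent.H59.L.S8.R755.KF.W1
import Pool.Agent.H59.L.S8.R755.KF.D1
import Pool.Agent.H59.L.S8.R755.KF.D2
import Pool.Agent.H59.L.S8.R755.KF.D3
import Pool.Agent.H59.L.S8.R755.KF.All
import Pool.Agent.H59.L.S8.R755.KF.Geo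
import Pool.Agent.H59.L.S8.Y506.PV.Img
import Pool.Agent.H59.L.S8.Y506.PV.Stb
import Pool.Agent.H59.L.S8.Y941.PV.Prj
import Pool.Agent.H59.L.S8.Y388.PV.Lin
import Pool.Agent.H59.L.S8.Y279.PV.Den
import Pool.Agent.H59.L.S8.Y252.PV.M4
import Pool.Agent.H59.L.S8.Y625.PV.LevUm
import Pool.Agent.H59.L.S8.Y211.PV.Iso
import Pool.Agent.H59.L.S8.Y151.PV.Hyp
import Pool.Agent.H59.L.S8.R751.MB.Fsu
import Pool.Agent.H59.L.S8.R751.MB.Prb
import Pool.Agent.H59.L.S8.R751.MB.Prd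
import Pool.Agent.H59.L.S8.R751.MB.Dsb
import Pool.Agent.H59.L.a45f1a.Q184.NB.Core
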