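import Pool.Agent.H59.KJ.Ops
import Pool.Agent.H59.L.S8.Y506.PV.Fin

/-!
# Cuts through the barycentre, and polytopes with few facets
-/

set_option autoImplicit false

namespace Pool.Agent.H59.KJ

open MeasureTheory Set Filter Topology
open scoped ENNReal InnerProductSpace Pointwise
open Pool.Agent.R754.KG (E un sl Rv min_const)
open Pool.Agent.R755.KF (CB)
open Pool.Agent.R755.KS (cb_pre)
open Pool.Agent.Y506.PV (CcW ind)

/-- the part of the body over `Q` -/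
def cyl {N j n : ℕ} (e : (E N × E j) ≃ₗ[ℝ] E n) (K : Set (E n)) (Q : Set (E j)) : Set (E n) :=
  {z | z ∈ K ∧ (e.symm z).2 ∈ Q}

theorem sl_cyl {N j n : ℕ} (e : (E N × E j) ≃ₗ[ℝ] E n) (K : Set (E n)) {Q : Set (E j)} {t : E j}
    (ht : t ∈ Q) : sl (e ⁻¹' cyl e K Q) t = sl (e ⁻¹' K) t := by
  ext x
  constructor
  · intro h
    exact h.1
  · intro h
    refine ⟨h, ?_⟩
    rw [e.symm_apply_apply]
    exact ht

theorem rv_cyl {N j n : ℕ} (e : (E N × E j) ≃ₗ[ℝ] E n) {K : Set (E n)} (hK : CB (e ⁻¹' K))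
    (Q : Set (E j)) (t : E j) : Rv (e ⁻¹' cyl e K Q) t ≤ Rv (e ⁻¹' K) t := by
  unfold Rv
  refine ENNReal.toReal_mono (Pool.Agent.R755.KF.Maux.sl_fin hK t) (measure_mono ?_)
  intro x hx
  exact hx.1

/-- cuts by cylinders over convex sets which contain the barycentre -/
theorem op_cut (s : ℕ) {κ0 : ℝ} (h0 : 0 < κ0) : ∃ κ : ℝ, 0 < κ ∧
    ∀ (N j n : ℕ) (K : Set (E n)) (e : (E N × E j) ≃ₗ[ℝ] E n) (t : E j) (Q : Set (E j)), j ≤ s →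
    (∀ θ : E j, ∫ z, ⟪z.2, θ⟫_ℝ ∂(un (e ⁻¹' K)) = ⟪t, θ⟫_ℝ) → Gd κ0 K → t ∈ Q →
    IsCompact (cyl e K Q) → Convex ℝ (cyl e K Q) → (interior (cyl e K Q)).Nonempty →
    Gd κ (cyl e K Q) := by
  obtain ⟨κ, hκ, H⟩ := min_const (P := fun j κ => ∀ (N n : ℕ) (K : Set (E n))
      (e : (E N × E j) ≃ₗ[ℝ] E n) (t : E j) (Q : Set (E j)),
      (∀ θ : E j, ∫ z, ⟪z.2, θ⟫_ℝ ∂(un (e ⁻¹' K)) = ⟪t, θ⟫_ℝ) → Gd κ0 K → t ∈ Q →
      IsCompact (cyl e K Q) → Convex ℝ (cyl e K Q) → (interior (cyl e K Q)).Nonempty →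
      Gd κ (cyl e K Q))
    (fun j => by
      obtain ⟨c, hc, Hb⟩ := Pool.Agent.N483.KM.barR j
      obtain ⟨κ1, hκ1, H1⟩ := op_sec j (Real.exp_pos (-c)) h0
      obtain ⟨κ2, hκ2, H2⟩ := op_ext j (Real.exp_pos (-c)) hκ1
      refine ⟨κ2, hκ2, fun N n K e t Q ht hK htQ k1 k2 k3 => ?_⟩
      have hcb := cb_pre e hK.comp hK.conv hK.int
      obtain ⟨h1, h2⟩ := Hb N (e ⁻¹' K) t hcb ht
      have h3 := bar_large hc h1 h2
      refine H2 N j n _ e t le_rfl k1 k2 k3 (fun t' => ?_) ?_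
      · have e1 : Rv (e ⁻¹' cyl e K Q) t = Rv (e ⁻¹' K) t := by
          unfold Rv
          rw [sl_cyl e K htQ]
        rw [e1]
        exact (mul_le_mul_of_nonneg_left (rv_cyl e hcb Q t') (Real.exp_pos _).le).trans (h3 t')
      · rw [sl_cyl e K htQ]
        exact H1 N j n K e t le_rfl (fun t' => h3 t') hK)
    (fun j κ κ' hκκ hP N n K e t Q ht hK htQ k1 k2 k3 =>
      (hP N n K e t Q ht hK htQ k1 k2 k3).mono hκκ) s
  exact ⟨κ, hκ, fun N j n K e t Q hj ht hK htQ k1 k2 k3 => H j hj N n K e t Q ht hK htQ k1 k2 k3⟩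

/-- polytopes with few facets -/
theorem gd_poly (q : ℕ) : ∃ κ : ℝ, 0 < κ ∧ ∀ (m : ℕ) (K : Set (E m)), Bornology.IsBounded K →
    (interior K).Nonempty → Pool.Agent.Y506.PV.SlabB q K → Gd κ K := by
  obtain ⟨κ1, hκ1, H1⟩ := Pool.Agent.Y506.PV.cc_base Pool.Agent.Y506.PV.ccl
    Pool.Agent.Y363.PV.phis Pool.Agent.Y506.PV.radR Pool.Agent.Y211.PV.iso q q 1 le_rfl dz dz_pos
  refine ⟨κ1, hκ1, fun m K h1 h2 h3 => ?_⟩
  have hb : Pool.Agent.Y506.PV.Base q q 1 K := ⟨h1, h2, Or.inl h3⟩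
  have hcp := hb.compact Pool.Agent.Y363.PV.phis le_rfl
  refine ⟨hcp, hb.convex Pool.Agent.Y363.PV.phis le_rfl, h2, ?_⟩
  rcases Nat.eq_zero_or_pos m with rfl | hn
  · exact Pool.Agent.R754.KG.cc_zero dz_pos.le K hcp h2
  · exact H1 m K hn hb

end Pool.Agent.H59.KJ
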