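import Pool.Agent.H59.L.a45f1a.Q184.NB.Core
import Pool.Agent.H59.L.S8.R754.KG.G

/-!
# Bodies dominated by the law of a linear image of a random point of a body
-/

set_option autoImplicit false

namespace Pool.Agent.H59.KJ

open MeasureTheory Set Filter Topology
open scoped ENNReal InnerProductSpace
open Pool.Agent.R754.KG (E un un_prob)
open Pool.Agent.Y506.RG (EW VW Adm VW_shift EW_nonneg EW_mono EW_const EW_add EW_const_mul)
open Pool.Agent.Y506.PV
open Pool.Agent.Q184.NB (CC CC_pos down up)

/-- the variance does not change when a constant is added -/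
theorem VW_addc {n : ℕ} {w : E n → ℝ} (h : Adm w) (v : E n → ℝ)
    (h1 : Integrable fun x => v x * w x) (h2 : Integrable fun x => v x ^ 2 * w x) (a : ℝ) :
    VW w (fun x => a + v x) = VW w v := by
  have hc : Integrable fun x => a * w x := h.one.const_mul a
  have e1 : EW w (fun x => a + v x) = a + EW w v := by
    rw [EW_add (fun _ => a) v hc h1, EW_const h]
  have e2 : (fun x => (a + v x) ^ 2) = fun x => a ^ 2 + (2 * a * v x + v x ^ 2) := by
    funext x
    ring
  have i1 : Integrable fun x => (2 * a * v x) * w x := by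
    have := h1.const_mul (2 * a)
    refine this.congr (Eventually.of_forall fun x => ?_)
    simp only
    ring
  have i2 : Integrable fun x => (2 * a * v x + v x ^ 2) * w x := by
    refine (i1.add h2).congr (Eventually.of_forall fun x => ?_)
    simp only [Pi.add_apply]
    ring
  have e3 : EW w (fun x => (a + v x) ^ 2) = a ^ 2 + (2 * a * EW w v + EW w fun x => v x ^ 2) := by
    rw [e2, EW_add (fun _ => a ^ 2) (fun x => 2 * a * v x + v x ^ 2) (h.one.const_mul _) i2,
      EW_const h, EW_add (fun x => 2 * a * v x) (fun x => v x ^ 2) i1 h2, EW_const_mul]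
  unfold VW
  rw [e1, e3]
  ring

/-- **convex bodies dominated by the law of `c + T X`** -/
theorem dom_core {η M : ℝ} (hη : 0 < η) (hη1 : η < 1) (hM : 1 ≤ M) {m n : ℕ} {K : Set (E m)}
    {P F : Set (E n)} (T : E m →ₗ[ℝ] E n) (c : E n) (hT : Function.Surjective T)
    (hKc : IsCompact K) (hKv : Convex ℝ K) (hKi : (interior K).Nonempty)
    (hPc : IsCompact P) (hPi : (interior P).Nonempty) (hF : MeasurableSet F)
    (hFv : volume F ≤ ENNReal.ofReal η * volume P)
    (hdom : (volume P)⁻¹ • volume.restrict (P \ F) ≤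
      ENNReal.ofReal M • Measure.map (fun x => c + T x) (un K))
    {κ δ : ℝ} (hδ : 0 ≤ δ) (hcc : CcW κ ((1 - η) / M * δ) (ind K)) :
    CcW (κ / Real.sqrt (CC ((1 - η) / M)) * Real.sqrt (1 - η)) (δ + 4 * η) (ind P) := by
  have hM0 : 0 < M := by linarith
  have h1η : 0 < 1 - η := by linarith
  obtain ⟨v, hv⟩ : ∃ v : ℝ, v = (1 - η) / M := ⟨_, rfl⟩
  have hv0 : 0 < v := by rw [hv]; positivity
  have hv1 : v ≤ 1 := by
    rw [hv, div_le_one hM0]
    linarith
  rw [← hv] at hcc ⊢
  have hnm : n ≤ m := by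
    have := LinearMap.finrank_le_finrank_of_surjective (f := T) hT
    simpa using this
  have hKp : 0 < volume K := vol_pos hKi
  have hKf : volume K ≠ ⊤ := hKc.measure_lt_top.ne
  have hPp : 0 < volume P := vol_pos hPi
  have hPf : volume P ≠ ⊤ := hPc.measure_lt_top.ne
  have hprob : IsProbabilityMeasure (un K) := un_prob hKp.ne' hKf
  obtain ⟨V, hVd⟩ : ∃ V : ℝ, V = (volume P).toReal := ⟨_, rfl⟩
  obtain ⟨W, hWd⟩ : ∃ W : ℝ, W = (volume K).toReal := ⟨_, rfl⟩
  have hV : 0 < V := by rw [hVd]; exact ENNReal.toReal_pos hPp.ne' hPf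
  have hW : 0 < W := by rw [hWd]; exact ENNReal.toReal_pos hKp.ne' hKf
  obtain ⟨D, hD⟩ : ∃ D : Set (E n), D = P \ F := ⟨_, rfl⟩
  have hDm : MeasurableSet D := by rw [hD]; exact hPc.measurableSet.diff hF
  have hDP : D ⊆ P := by rw [hD]; exact sdiff_subset
  have hDf : volume D ≠ ⊤ := ((measure_mono hDP).trans_lt hPc.measure_lt_top).ne
  rw [← hD] at hdom
  -- volumes
  have hDv : (1 - η) * V ≤ (volume D).toReal := by
    have h1 : volume P ≤ volume D + volume F := by
      refine (measure_mono ?_).trans (measure_union_le _ _)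
      intro x hx
      by_cases hxE : x ∈ F
      · exact Or.inr hxE
      · left
        rw [hD]
        exact ⟨hx, hxE⟩
    have hEf : volume F ≠ ⊤ := (hFv.trans_lt (ENNReal.mul_lt_top ENNReal.ofReal_lt_top
      hPc.measure_lt_top)).ne
    have h2 : (volume F).toReal ≤ η * V := by
      have := ENNReal.toReal_mono (ENNReal.mul_ne_top ENNReal.ofReal_ne_top hPf) hFv
      rwa [ENNReal.toReal_mul, ENNReal.toReal_ofReal hη.le, ← hVd] at this
    have h3 := ENNReal.toReal_mono (ENNReal.add_ne_top.2 ⟨hDf, hEf⟩) h1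
    rw [ENNReal.toReal_add hDf hEf, ← hVd] at h3
    linarith
  have hD0 : 0 < (volume D).toReal := lt_of_lt_of_le (by positivity) hDv
  have hDp : 0 < volume D := (ENNReal.toReal_pos_iff.1 hD0).1
  have hTm : Measurable fun x => c + T x :=
    (T.continuous_of_finiteDimensional.measurable).const_add c
  -- the law
  obtain ⟨ν, hν⟩ : ∃ ν : Measure (E n), ν = ENNReal.ofReal M • Measure.map (fun x => c + T x) (un K) :=
    ⟨_, rfl⟩
  have hνf : IsFiniteMeasure ν := by
    refine ⟨?_⟩
    rw [hν, Measure.smul_apply, smul_eq_mul, Measure.map_apply hTm MeasurableSet.univ]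
    exact ENNReal.mul_lt_top ENNReal.ofReal_lt_top (measure_lt_top _ _)
  rw [← hν] at hdom
  obtain ⟨lm, hlm⟩ : ∃ lm : Measure (E n), lm = (volume P)⁻¹ • volume.restrict D := ⟨_, rfl⟩
  rw [← hlm] at hdom
  have hlf : IsFiniteMeasure lm := by
    refine ⟨?_⟩
    rw [hlm, Measure.smul_apply, smul_eq_mul, Measure.restrict_apply_univ]
    exact ENNReal.mul_lt_top (ENNReal.inv_lt_top.2 hPp) hDf.lt_top
  have hld : lm.HaveLebesgueDecomposition ν := Measure.haveLebesgueDecomposition_of_sigmaFinite lm ν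
  obtain ⟨g, hg⟩ : ∃ g : E n → ℝ≥0∞, g = lm.rnDeriv ν := ⟨_, rfl⟩
  have hgm : Measurable g := by rw [hg]; exact Measure.measurable_rnDeriv _ _
  have hg1 : ∀ᵐ y ∂ν, g y ≤ 1 := by
    rw [hg]
    exact Measure.rnDeriv_le_one_of_le hdom
  have hwd : ν.withDensity g = lm := by
    rw [hg]
    exact Measure.withDensity_rnDeriv_eq _ _ (Measure.absolutelyContinuous_of_le hdom)
  obtain ⟨g1, hg1d⟩ : ∃ g1 : E n → ℝ, ∀ y, g1 y = (min (g y) 1).toReal :=
    ⟨fun y => (min (g y) 1).toReal, fun y => rfl⟩
  have hg1m : Measurable g1 := by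
    have : g1 = fun y => (min (g y) 1).toReal := funext hg1d
    rw [this]
    exact (hgm.min measurable_const).ennreal_toReal
  have hfin1 : ∀ y, min (g y) 1 ≠ ⊤ := fun y => ((min_le_right _ _).trans_lt ENNReal.one_lt_top).ne
  have hg10 : ∀ y, 0 ≤ g1 y := fun y => by rw [hg1d]; exact ENNReal.toReal_nonneg
  have hg11 : ∀ y, g1 y ≤ 1 := fun y => by
    rw [hg1d]
    have := ENNReal.toReal_mono ENNReal.one_ne_top (min_le_right (g y) 1)
    simpa using this
  have hwd1 : ν.withDensity (fun y => ENNReal.ofReal (g1 y)) = lm := by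
    rw [← hwd]
    refine withDensity_congr_ae ?_
    filter_upwards [hg1] with y hy
    rw [hg1d, ENNReal.ofReal_toReal (hfin1 y), min_eq_left hy]
  -- the weight
  obtain ⟨w', hw'd⟩ : ∃ w' : E m → ℝ, ∀ x, w' x = ind K x * g1 (c + T x) := ⟨_, fun x => rfl⟩
  have key : ∀ f : E n → ℝ, Measurable f →
      V⁻¹ * ∫ y in D, f y = M / W * ∫ x, f (c + T x) * w' x := by
    intro f hf
    have hGm : Measurable fun y => g1 y * f y := hg1m.mul hf
    have e0 : ∫ y, f y ∂lm = V⁻¹ * ∫ y in D, f y := by
      rw [hlm, integral_smul_measure, ENNReal.toReal_inv, ← hVd, smul_eq_mul]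
    rw [← e0]
    calc ∫ y, f y ∂lm = ∫ y, f y ∂(ν.withDensity (fun y => ENNReal.ofReal (g1 y))) := by
          rw [hwd1]
      _ = ∫ y, g1 y * f y ∂ν := by
          have hgm2 : Measurable fun y => ENNReal.ofReal (g1 y) :=
            ENNReal.measurable_ofReal.comp hg1m
          rw [integral_withDensity_eq_integral_toReal_smul hgm2 (Eventually.of_forall fun _ =>
              ENNReal.ofReal_lt_top)]
          refine integral_congr_ae (Eventually.of_forall fun y => ?_)
          simp only
          rw [ENNReal.toReal_ofReal (hg10 y), smul_eq_mul]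
      _ = M * ∫ y, g1 y * f y ∂(Measure.map (fun x => c + T x) (un K)) := by
          rw [hν, integral_smul_measure, ENNReal.toReal_ofReal hM0.le, smul_eq_mul]
      _ = M * ∫ x, g1 (c + T x) * f (c + T x) ∂(un K) := by
          rw [integral_map hTm.aemeasurable hGm.aestronglyMeasurable]
      _ = M * (W⁻¹ * ∫ x in K, g1 (c + T x) * f (c + T x)) := by
          unfold un
          rw [integral_smul_measure, ENNReal.toReal_inv, ← hWd, smul_eq_mul]
      _ = M / W * ∫ x, f (c + T x) * w' x := by
          rw [← int_ind K hKc.measurableSet, div_eq_mul_inv, mul_assoc]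
          congr 2
          refine integral_congr_ae (Eventually.of_forall fun x => ?_)
          simp only
          rw [hw'd]
          ring
  have hAK := adm_ind K hKc.measurableSet hKc.isBounded hKp
  have hw'm : Measurable w' := by
    have : w' = fun x => ind K x * g1 (c + T x) := funext hw'd
    rw [this]
    exact hAK.meas.mul (hg1m.comp hTm)
  have hw'0 : ∀ x, 0 ≤ w' x := fun x => by
    rw [hw'd]
    exact mul_nonneg (hAK.nonneg x) (hg10 _)
  have hw'le : ∀ x, w' x ≤ ind K x := fun x => by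
    rw [hw'd]
    exact mul_le_of_le_one_right (hAK.nonneg x) (hg11 _)
  have hmass : ∫ x, w' x = (volume D).toReal * W / (M * V) := by
    have h1 := key (fun _ => 1) measurable_const
    simp only [one_mul] at h1
    rw [setIntegral_const, smul_eq_mul, mul_one] at h1
    have h2 : volume.real D = (volume D).toReal := rfl
    rw [h2] at h1
    rw [eq_div_iff (by positivity)]
    field_simp at h1
    linarith
  have hw' : Adm w' := by
    refine ⟨hw'0, ?_, ?_, hw'm⟩
    · refine Integrable.mono' hAK.int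
        ((by fun_prop : Measurable fun x : E m => 1 + ‖x‖ ^ 2).mul hw'm).aestronglyMeasurable
        (Eventually.of_forall fun x => ?_)
      rw [Real.norm_eq_abs, abs_of_nonneg (mul_nonneg (by positivity) (hw'0 x))]
      exact mul_le_mul_of_nonneg_left (hw'le x) (by positivity)
    · rw [hmass]
      positivity
  have hcc1 : CcW (κ / Real.sqrt (CC v)) δ w' := by
    refine down Pool.Agent.Y625.PV.lev hv0 hv1 hAK (lcn_ind hKv) hw' hw'le ?_ hcc
    rw [hmass, int_ind1 K hKc.measurableSet, ← hWd, hv, le_div_iff₀ (by positivity)]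
    calc (1 - η) / M * W * (M * V) = (1 - η) * V * W := by field_simp
      _ ≤ _ := mul_le_mul_of_nonneg_right hDv hW.le
  -- push forward
  have hEW : ∀ f : E n → ℝ, Measurable f → EW (ind D) f = EW w' fun x => f (c + T x) := by
    intro f hf
    have k1 := key f hf
    unfold EW
    rw [int_ind D hDm, int_ind1 D hDm, hmass]
    have k2 : ∫ y in D, f y = V * (M / W) * ∫ x, f (c + T x) * w' x := by
      rw [mul_assoc, ← k1, ← mul_assoc, mul_inv_cancel₀ hV.ne', one_mul]
    rw [k2]
    field_simp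
  have hVW : ∀ f : E n → ℝ, Measurable f → VW (ind D) f = VW w' fun x => f (c + T x) := by
    intro f hf
    unfold VW
    rw [hEW f hf, hEW (fun x => f x ^ 2) (hf.pow_const 2)]
  have hcc2 : CcW (κ / Real.sqrt (CC v)) δ (ind D) := by
    intro k hk S s hs hvar u hu hu1 hud
    have hSm : Measurable S := S.continuous_of_finiteDimensional.measurable
    have hSc : Continuous S := S.continuous_of_finiteDimensional
    have hTc : Continuous T := T.continuous_of_finiteDimensional
    rw [hVW (fun x => u (S x)) (hu.continuous.measurable.comp hSm)]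
    have e1 : (fun x => u (S (c + T x))) = fun x => (fun z => u (S c + z)) ((S ∘ₗ T) x) := by
      funext x
      simp [map_add]
    rw [e1]
    refine hcc1 k (hk.trans hnm) (S ∘ₗ T) s hs (fun θ hθ => ?_) (fun z => u (S c + z))
      (hu.comp (contDiff_const.add contDiff_id)) (fun y => hu1 _) (fun y => ?_)
    · have h1 := hvar θ hθ
      have h2 : Measurable fun x => ⟪S x, θ⟫_ℝ := hSm.inner measurable_const
      rw [hVW (fun x => ⟪S x, θ⟫_ℝ) h2] at h1
      have e2 : (fun x => ⟪S (c + T x), θ⟫_ℝ) = fun x => ⟪S c, θ⟫_ℝ + ⟪(S ∘ₗ T) x, θ⟫_ℝ := by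
        funext x
        rw [map_add, inner_add_left]
        rfl
      rw [e2] at h1
      have hb : ∃ B : ℝ, ∀ x : E m, |⟪(S ∘ₗ T) x, θ⟫_ℝ| ≤ B * ‖x‖ := by
        obtain ⟨B, hB⟩ : ∃ B : ℝ, B = ‖LinearMap.toContinuousLinearMap (S ∘ₗ T)‖ := ⟨_, rfl⟩
        refine ⟨B, fun x => ?_⟩
        have h3 := abs_real_inner_le_norm ((S ∘ₗ T) x) θ
        rw [hθ, mul_one] at h3
        refine h3.trans ?_
        rw [hB]
        exact (LinearMap.toContinuousLinearMap (S ∘ₗ T)).le_opNorm x
      obtain ⟨B, hB⟩ := hb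
      have hB' : ∀ x : E m, |⟪(S ∘ₗ T) x, θ⟫_ℝ| ≤ |B| * ‖x‖ := fun x =>
        (hB x).trans (mul_le_mul_of_nonneg_right (le_abs_self B) (norm_nonneg x))
      have hme : Measurable fun x : E m => ⟪(S ∘ₗ T) x, θ⟫_ℝ := by
        have : Continuous fun x : E m => ⟪S (T x), θ⟫_ℝ := (hSc.comp hTc).inner continuous_const
        exact this.measurable
      have i1 : Integrable fun x => ⟪(S ∘ₗ T) x, θ⟫_ℝ * w' x := by
        refine hw'.of_bd _ hme |B| fun x => (hB' x).trans ?_
        have h0 := norm_nonneg x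
        refine mul_le_mul_of_nonneg_left ?_ (abs_nonneg B)
        nlinarith [sq_nonneg (‖x‖ - 1)]
      have i2 : Integrable fun x => ⟪(S ∘ₗ T) x, θ⟫_ℝ ^ 2 * w' x := by
        refine hw'.of_bd (fun x => ⟪(S ∘ₗ T) x, θ⟫_ℝ ^ 2) (hme.pow_const 2) (B ^ 2) fun x => ?_
        rw [abs_pow]
        calc |⟪(S ∘ₗ T) x, θ⟫_ℝ| ^ 2 ≤ (|B| * ‖x‖) ^ 2 :=
              pow_le_pow_left₀ (abs_nonneg _) (hB' x) 2
          _ = B ^ 2 * ‖x‖ ^ 2 := by rw [mul_pow, sq_abs]
          _ ≤ B ^ 2 * (1 + ‖x‖ ^ 2) := by
              refine mul_le_mul_of_nonneg_left ?_ (sq_nonneg B)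
              linarith
      rwa [VW_addc hw' _ i1 i2] at h1
    · have h3 : fderiv ℝ (fun z => u (S c + z)) y = fderiv ℝ u (S c + y) := by
        have := fderiv_comp_add_left (𝕜 := ℝ) (f := u) (x := y) (S c)
        exact this
      rw [h3]
      exact hud _
  have hAP := adm_ind P hPc.measurableSet hPc.isBounded hPp
  have hAD := adm_ind D hDm (hPc.isBounded.subset hDP) hDp
  exact up hη hη1 hAP hAD (fun x => by
      unfold ind
      by_cases hx : x ∈ D
      · rw [indicator_of_mem hx, indicator_of_mem (hDP hx)]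
      · rw [indicator_of_notMem hx]
        exact indicator_nonneg (fun _ _ => zero_le_one) _) (by
      rw [int_ind1 P hPc.measurableSet, int_ind1 D hDm, ← hVd]
      exact hDv) hcc2 hδ

end Pool.Agent.H59.KJ
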