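import Pool.Agent.H59.KJ.Base
import Pool.Agent.H59.KJ.Dom

/-!
# Convex bodies with concentration: one parameter, and all operations
-/

set_option autoImplicit false

namespace Pool.Agent.H59.KJ

open MeasureTheory Set Filter Topology ProbabilityTheory
open scoped ENNReal InnerProductSpace Pointwise
open Pool.Agent.R754.KG (E un sl Rv un_prob min_const int_trans cc_trans VW_ind)
open Pool.Agent.R755.KF (CB S_LIFT S_DENR S_KWC KW BL)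
open Pool.Agent.R755.KS (KM bl QC km_mono km_map ccw_mono cb_pre S_CCB S_BV S_YB2 un_bdd var_cont)
open Pool.Agent.N483.KM (S_SECE S_F2F S_ONE S_BMX S_BAR Cen)
open Pool.Agent.Y506.PV (CcW ind S_DEN)
open Pool.Agent.Y506.RG (EW VW Adm Star)

/-! ### final forms -/

theorem denrR : S_DENR :=
  Pool.Agent.R755.KF.denr (Pool.Agent.Y252.PV.M4.m4 Pool.Agent.Y625.PV.lev) Pool.Agent.Y625.PV.um

theorem liftR : S_LIFT :=
  Pool.Agent.R755.KF.lift (Pool.Agent.R755.KF.lift1 Pool.Agent.Y941.PV.prj denrR)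
    Pool.Agent.Y388.PV.cmp Pool.Agent.Y388.PV.fac

theorem denR : S_DEN := Pool.Agent.Y279.PV.den (Pool.Agent.Y252.PV.M4.m4 Pool.Agent.Y625.PV.lev)
  Pool.Agent.Y625.PV.um

section
open Pool.Agent.R755.KF Pool.Agent.R755.KS

theorem bvR : S_BV := bv rl (bpl geo) (chan be)
theorem ybR : S_YB2 := yb2 bvR (loc geo fib (plh zn_ok) tmR) (lv rep gp)
theorem ccbR : S_CCB := ccb wh pxR ybR kw_of_cc

end

theorem seceR : S_SECE :=
  Pool.Agent.N483.KM.sece_of Pool.Agent.N348.KM.MXF.t_MXF Pool.Agent.N348.KM.MXF.t_IVT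

theorem f2fR : S_F2F := Pool.Agent.N483.KM.f2f Pool.Agent.N348.KM.MXF.t_MXF
  Pool.Agent.N348.KM.MXF.t_IVT Pool.Agent.N483.KM.regcR Pool.Agent.N483.KM.nearR
  Pool.Agent.N483.KM.trfR Pool.Agent.N483.KM.m4lR Pool.Agent.N483.KM.lciR

theorem oneR : S_ONE := Pool.Agent.N483.KM.one f2fR Pool.Agent.N27.KM.t_CCL

theorem bmxR : S_BMX := Pool.Agent.N738.KM.t_BMX (Pool.Agent.N327.KM.t_BM1 f2fR)

theorem prbR : Pool.Agent.R751.MB.S_PRB := Pool.Agent.R751.MB.prb Pool.Agent.R751.MB.prd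

theorem fsuR : Pool.Agent.R751.MB.S_FSU := Pool.Agent.R751.MB.fsu prbR

/-! ### fibres -/

theorem vol_ne_of_pos {N d : ℕ} {K : Set (E N × E d)} {t : E d} (h : 0 < Rv K t) :
    volume (sl K t) ≠ 0 := by
  intro h0
  unfold Rv at h
  rw [h0] at h
  simp at h

theorem large_pos {N d : ℕ} {K : Set (E N × E d)} {ε : ℝ} (hε : 0 < ε) (hF : CB K) {t : E d}
    (ht : ∀ t', ε * Rv K t' ≤ Rv K t) : volume (sl K t) ≠ 0 := by
  refine vol_ne_of_pos ?_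
  by_contra h0
  push Not at h0
  have h1 : ∀ t', volume (sl K t') = 0 := fun t' => by
    rw [Pool.Agent.R755.KF.Maux.R_vol hF t', ENNReal.ofReal_eq_zero]
    by_contra h2
    push Not at h2
    have h3 := ht t'
    have h4 : 0 < ε * Rv K t' := mul_pos hε h2
    linarith
  have h2 := Pool.Agent.R755.KF.Maux.vol_fub hF
  simp only [h1, lintegral_zero] at h2
  exact hF.pos.ne' h2

theorem bar_large {N d : ℕ} {K : Set (E N × E d)} {c : ℝ} (hc : 0 ≤ c) {t : E d}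
    (h1 : 0 < Rv K t) (h2 : Cen c K t) (t' : E d) : Real.exp (-c) * Rv K t' ≤ Rv K t := by
  have h3 := Pool.Agent.N483.KM.cen_up hc h1 h2 t'
  calc Real.exp (-c) * Rv K t' ≤ Real.exp (-c) * (Real.exp c * Rv K t) :=
        mul_le_mul_of_nonneg_left h3 (Real.exp_pos _).le
    _ = Rv K t := by
        rw [← mul_assoc, ← Real.exp_add, neg_add_cancel, Real.exp_zero, one_mul]

/-- large fibres, with a natural number instead of `ε` -/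
theorem large_of {N d : ℕ} {K : Set (E N × E d)} (h : CB K) {s : ℕ} {t : E d}
    (H : ∀ t', volume (sl K t') ≤ s * volume (sl K t)) (t' : E d) :
    1 / ((s : ℝ) + 1) * Rv K t' ≤ Rv K t := by
  have h1 := H t'
  have h2 : 0 ≤ Rv K t := ENNReal.toReal_nonneg
  rw [Pool.Agent.R755.KF.Maux.R_vol h t, Pool.Agent.R755.KF.Maux.R_vol h t',
    ← ENNReal.ofReal_natCast s, ← ENNReal.ofReal_mul (Nat.cast_nonneg s),
    ENNReal.ofReal_le_ofReal_iff (mul_nonneg (Nat.cast_nonneg s) h2)] at h1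
  have h3 : (0 : ℝ) < (s : ℝ) + 1 := by positivity
  rw [one_div, inv_mul_le_iff₀ h3]
  linarith

/-- the barycentre of the base -/
theorem bar_of {N d n : ℕ} {K : Set (E n)} (e : (E N × E d) ≃ₗ[ℝ] E n) (h : CB (e ⁻¹' K)) {t : E d}
    (H : ∀ θ : E d, ∫ z, ⟪(e.symm z).2, θ⟫_ℝ ∂(un K) = ⟪t, θ⟫_ℝ) (θ : E d) :
    ∫ z, ⟪z.2, θ⟫_ℝ ∂(un (e ⁻¹' K)) = ⟪t, θ⟫_ℝ := by
  have h1 := Pool.Agent.R754.KG.un_img e h.pos.ne' h.comp.measure_lt_top.ne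
    fun z => ⟪(e.symm z).2, θ⟫_ℝ
  rw [image_preimage_eq K e.surjective, H θ] at h1
  rw [h1]
  simp

/-! ### weak Poincaré inequalities and concentration -/

/-- concentration from a weak Poincaré inequality -/
theorem cc_of_km {A δ : ℝ} (hA : 0 < A) (hδ : 0 < δ) {N : ℕ} {C : Set (E N)}
    (hm : IsCompact C) (hi : (interior C).Nonempty) (h : KM A (δ / 2) (un C)) :
    CcW (Real.sqrt (δ / (2 * A))) δ (ind C) := by
  intro k hk T s hs hT v hv hvb hvd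
  have hp : IsProbabilityMeasure (un C) :=
    un_prob (Pool.Agent.R755.KF.vol_ne hi) hm.measure_lt_top.ne
  have hTc : Continuous T := T.continuous_of_finiteDimensional
  have hd : Continuous (fderiv ℝ v) := hv.continuous_fderiv one_ne_zero
  obtain ⟨κ, hκd⟩ : ∃ κ, κ = Real.sqrt (δ / (2 * A)) := ⟨_, rfl⟩
  rw [← hκd] at hvd
  have h1 := h k T s hs (fun θ hθ => by
    have := hT θ hθ
    rwa [VW_ind hm.measurableSet] at this) (max 1 (κ / Real.sqrt s)) v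
    ⟨hv, fun y => (hvb y).trans (le_max_left _ _), fun y => (hvd y).trans (le_max_right _ _)⟩ hvb
  rw [VW_ind hm.measurableSet]
  have hκ : (κ / Real.sqrt s) ^ 2 = δ / (2 * A) / s := by
    rw [div_pow, hκd, Real.sq_sqrt (by positivity), Real.sq_sqrt hs.le]
  have h2 : ∫ x, ‖fderiv ℝ v (T x)‖ ^ 2 ∂(un C) ≤ δ / (2 * A) / s := by
    rw [← hκ]
    have h3 : ∫ _, (κ / Real.sqrt s) ^ 2 ∂(un C) = (κ / Real.sqrt s) ^ 2 := by simp
    rw [← h3]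
    refine integral_mono (Pool.Agent.R754.KG.un_int (Pool.Agent.R755.KF.vol_ne hi) hm.isBounded
      ((hd.comp hTc).norm.pow 2)) (integrable_const _) fun x => ?_
    exact pow_le_pow_left₀ (norm_nonneg _) (hvd _) 2
  refine h1.trans ?_
  have h3 : A * s * ∫ x, ‖fderiv ℝ v (T x)‖ ^ 2 ∂(un C) ≤ A * s * (δ / (2 * A) / s) :=
    mul_le_mul_of_nonneg_left h2 (by positivity)
  have h4 : A * s * (δ / (2 * A) / s) = δ / 2 := by
    field_simp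
  linarith

/-- weak Poincaré inequalities for all linear images -/
def WPf (A : ℝ → ℝ) {M : ℕ} (μ : Measure (E M)) : Prop :=
  ∀ δ : ℝ, 0 < δ → ∀ (k : ℕ) (P : E M →ₗ[ℝ] E k) (s : ℝ), 0 < s →
  (∀ θ : E k, ‖θ‖ = 1 → variance (fun x => ⟪P x, θ⟫_ℝ) μ ≤ s) →
  ∀ (v : E k → ℝ) (C : ℝ), ContDiff ℝ 1 v → (∀ y, |v y| ≤ 1) → (∀ y, ‖fderiv ℝ v y‖ ≤ C) →
  variance (fun x => v (P x)) μ ≤ δ + A δ * s * ∫ x, ‖fderiv ℝ v (P x)‖ ^ 2 ∂μ

theorem km_of_wpf {A : ℝ → ℝ} {M : ℕ} {μ : Measure (E M)} [IsProbabilityMeasure μ] {B : ℝ}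
    (hB : ∀ᵐ x ∂μ, ‖x‖ ≤ B) (h : WPf A μ) : ∀ δ : ℝ, 0 < δ → KM (A δ) δ μ := by
  intro δ hδ k P s hs hP C v hv hv1
  have hPc : Continuous P := P.continuous_of_finiteDimensional
  have h1 := h δ hδ k P s hs (fun θ hθ => by
    rw [var_cont hB (by fun_prop)]
    exact hP θ hθ) v C hv.c1 hv1 hv.gd
  rwa [var_cont hB (f := fun x => v (P x)) (hv.c1.continuous.comp hPc)] at h1

theorem wpf_of_km {A : ℝ → ℝ} {M : ℕ} {μ : Measure (E M)} [IsProbabilityMeasure μ] {B : ℝ}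
    (hB : ∀ᵐ x ∂μ, ‖x‖ ≤ B) (h : ∀ δ : ℝ, 0 < δ → KM (A δ) δ μ) : WPf A μ := by
  intro δ hδ k P s hs hP v C hv hv1 hvC
  have hPc : Continuous P := P.continuous_of_finiteDimensional
  rw [var_cont hB (f := fun x => v (P x)) (hv.continuous.comp hPc)]
  refine h δ hδ k P s hs (fun θ hθ => ?_) (max 1 C) v ⟨hv, fun y => (hv1 y).trans (le_max_left _ _),
    fun y => (hvC y).trans (le_max_right _ _)⟩ hv1
  have h1 := hP θ hθ
  rwa [var_cont hB (by fun_prop)] at h1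

/-! ### one parameter -/

/-- the level `δ` can be improved -/
theorem boost : ∃ δ' : ℝ, 0 < δ' ∧ ∀ κ' δ : ℝ, 0 < κ' → 0 < δ → ∃ κ : ℝ, 0 < κ ∧
    ∀ (n : ℕ) (K : Set (E n)), IsCompact K → Convex ℝ K → (interior K).Nonempty →
      CcW κ' δ' (ind K) → CcW κ δ (ind K) := by
  obtain ⟨δ', hδ', H⟩ := bmxR 1 one_pos
  refine ⟨δ', hδ', fun κ' δ hκ' hδ => ?_⟩
  obtain ⟨κ, hκ, H1⟩ := H κ' δ hκ' hδ
  refine ⟨κ, hκ, fun n K h1 h2 h3 h4 => H1 n K K h1 h2 h3 h1 h2 h3 ?_ h4⟩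
  have h5 : (1 / 2 : ℝ) • (K + K) ⊆ K := by
    rintro _ ⟨_, ⟨x, hx, y, hy, rfl⟩, rfl⟩
    have := h2 hx hy (by norm_num : (0 : ℝ) ≤ 1 / 2) (by norm_num : (0 : ℝ) ≤ 1 / 2) (by norm_num)
    simpa [smul_add] using this
  rw [ENNReal.ofReal_one, one_pow, one_mul, ← sq]
  gcongr

/-- the level -/
noncomputable def dz : ℝ := boost.choose

theorem dz_pos : 0 < dz := boost.choose_spec.1

/-- convex bodies with concentration at the level `dz` -/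
structure Gd (κ : ℝ) {n : ℕ} (K : Set (E n)) : Prop where
  comp : IsCompact K
  conv : Convex ℝ K
  int : (interior K).Nonempty
  cc : CcW κ dz (ind K)

theorem Gd.mono {κ κ' : ℝ} {n : ℕ} {K : Set (E n)} (h : κ' ≤ κ) (H : Gd κ K) : Gd κ' K :=
  ⟨H.comp, H.conv, H.int, H.cc.mono h⟩

theorem gd_all {κ0 δ : ℝ} (h0 : 0 < κ0) (hδ : 0 < δ) : ∃ κ : ℝ, 0 < κ ∧ ∀ (n : ℕ) (K : Set (E n)),
    Gd κ0 K → CcW κ δ (ind K) := by
  obtain ⟨κ, hκ, H⟩ := boost.choose_spec.2 κ0 δ h0 hδ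
  exact ⟨κ, hκ, fun n K hK => H n K hK.comp hK.conv hK.int hK.cc⟩

/-- bodies with weak Poincaré inequalities -/
theorem gd_of_km (A : ℝ → ℝ) : ∃ κ : ℝ, 0 < κ ∧ ∀ (n : ℕ) (K : Set (E n)), IsCompact K →
    Convex ℝ K → (interior K).Nonempty → (∀ δ : ℝ, 0 < δ → KM (A δ) δ (un K)) → Gd κ K := by
  have hd := dz_pos
  have hA : 0 < max (A (dz / 2)) 1 := lt_max_of_lt_right one_pos
  refine ⟨Real.sqrt (dz / (2 * max (A (dz / 2)) 1)), Real.sqrt_pos.2 (by positivity),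
    fun n K h1 h2 h3 h4 => ⟨h1, h2, h3, ?_⟩⟩
  exact cc_of_km hA hd h1 h3 (km_mono (le_max_left _ _) le_rfl (h4 (dz / 2) (by positivity)))

/-- weak Poincaré inequalities -/
theorem km_of_gd {κ0 : ℝ} (h0 : 0 < κ0) : ∃ A : ℝ → ℝ, (∀ δ, 0 < A δ) ∧
    ∀ (n : ℕ) (K : Set (E n)), Gd κ0 K → ∀ δ : ℝ, 0 < δ → KM (A δ) δ (un K) := by
  have h1 : ∀ δ : ℝ, ∃ A : ℝ, 0 < A ∧ (0 < δ → ∀ (n : ℕ) (K : Set (E n)), Gd κ0 K →
      KM A δ (un K)) := by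
    intro δ
    by_cases hδ : 0 < δ
    · obtain ⟨κ, hκ, H1⟩ := gd_all h0 (show 0 < δ / 17 by positivity)
      obtain ⟨A0, hA0, H2⟩ := Pool.Agent.R755.KF.kw_of_cc κ (δ / 17) hκ (by positivity)
      refine ⟨A0, hA0, fun _ n K hK => ?_⟩
      have h4 := H2 n K hK.comp hK.conv hK.int (H1 n K hK)
      rw [mul_div_cancel₀ _ (by norm_num : (17 : ℝ) ≠ 0)] at h4
      exact h4
    · exact ⟨1, one_pos, fun h => absurd h hδ⟩
  choose A hA0 hA using h1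
  exact ⟨A, hA0, fun n K hK δ hδ => hA δ hδ n K hK⟩

/-! ### the operations -/

theorem op_image (s : ℕ) {κ0 : ℝ} (h0 : 0 < κ0) : ∃ κ : ℝ, 0 < κ ∧ ∀ (m n : ℕ) (K : Set (E m))
    (B : E m →ₗ[ℝ] E n) (w : E n), m ≤ n + s → Function.Surjective B → Gd κ0 K →
    Gd κ ((fun x => w + B x) '' K) := by
  obtain ⟨κ1, hκ1, H1⟩ := min_const (P := fun j κ => ∀ (n : ℕ) (K : Set (E (n + j)))
      (B : E (n + j) →ₗ[ℝ] E n), Function.Surjective B → Gd κ0 K → CcW κ dz (ind (B '' K)))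
    (fun j => by
      obtain ⟨δ0, c, hδ0, hc, H1⟩ := Pool.Agent.Y506.PV.cc_img Pool.Agent.Y941.PV.prj
        denR Pool.Agent.Y388.PV.cmp Pool.Agent.Y388.PV.fac j dz dz_pos
      obtain ⟨κ, hκ, H2⟩ := gd_all h0 hδ0
      exact ⟨c * κ, by positivity, fun n K B hB hK =>
        H1 n κ K B hκ hK.comp hK.conv hK.int hB (H2 _ K hK)⟩)
    (fun j κ κ' hκκ hP n K B hB hK => (hP n K B hB hK).mono hκκ) s
  refine ⟨κ1, hκ1, fun m n K B w hm hB hK => ?_⟩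
  have hBc : Continuous B := B.continuous_of_finiteDimensional
  have e : (fun x => w + B x) '' K = (fun x => w + x) '' (B '' K) := by
    rw [image_image]
  have hnm : n ≤ m := by
    have := LinearMap.finrank_le_finrank_of_surjective (f := B) hB
    simpa using this
  obtain ⟨j, rfl⟩ : ∃ j, m = n + j := ⟨m - n, by omega⟩
  have i1 : IsCompact (B '' K) := hK.comp.image hBc
  have i3 := Pool.Agent.Y506.PV.int_image hK.int B hB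
  rw [e]
  exact ⟨i1.image (by fun_prop), (hK.conv.linear_image B).translate w, int_trans i3 w,
    cc_trans _ i1 i3 w (H1 j (by omega) n K B hB hK)⟩

theorem op_lift (s : ℕ) {κ0 : ℝ} (h0 : 0 < κ0) : ∃ κ : ℝ, 0 < κ ∧ ∀ (m n : ℕ) (K : Set (E m))
    (B : E m →ₗ[ℝ] E n), m ≤ n + s → Function.Surjective B → IsCompact K → Convex ℝ K →
    (interior K).Nonempty → Gd κ0 (B '' K) → Gd κ K := by
  obtain ⟨κ4, hκ4, H4⟩ := min_const (P := fun j κ => ∀ (n : ℕ) (K : Set (E (n + j)))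
      (B : E (n + j) →ₗ[ℝ] E n), Function.Surjective B → IsCompact K → Convex ℝ K →
      (interior K).Nonempty → Gd κ0 (B '' K) → CcW κ dz (ind K))
    (fun j => by
      obtain ⟨δ0, hδ0, H1⟩ := liftR j dz dz_pos
      obtain ⟨κ, hκ, H2⟩ := gd_all h0 hδ0
      obtain ⟨κ', hκ', H4⟩ := H1 κ hκ
      exact ⟨κ', hκ', fun n K B hB h1 h2 h3 hK => H4 n K B hB h1 h2 h3 (H2 _ _ hK)⟩)
    (fun j κ κ' hκκ hP n K B hB h1 h2 h3 hK => (hP n K B hB h1 h2 h3 hK).mono hκκ) s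
  refine ⟨κ4, hκ4, fun m n K B hm hB hc hcv hi hK => ⟨hc, hcv, hi, ?_⟩⟩
  have hnm : n ≤ m := by
    have := LinearMap.finrank_le_finrank_of_surjective (f := B) hB
    simpa using this
  obtain ⟨j, rfl⟩ : ∃ j, m = n + j := ⟨m - n, by omega⟩
  exact H4 j (by omega) n K B hB hc hcv hi hK

theorem op_ext (s : ℕ) {ε κ0 : ℝ} (hε : 0 < ε) (h0 : 0 < κ0) : ∃ κ : ℝ, 0 < κ ∧
    ∀ (N j n : ℕ) (K : Set (E n)) (e : (E N × E j) ≃ₗ[ℝ] E n) (t : E j), j ≤ s → IsCompact K →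
    Convex ℝ K → (interior K).Nonempty → (∀ t', ε * Rv (e ⁻¹' K) t' ≤ Rv (e ⁻¹' K) t) →
    Gd κ0 (sl (e ⁻¹' K) t) → Gd κ K := by
  obtain ⟨κ2, hκ2, H2⟩ := min_const (P := fun j κ => ∀ (N n : ℕ) (e : (E N × E j) ≃ₗ[ℝ] E n)
      (K : Set (E N × E j)) (t : E j), CB K → (∀ t', ε * Rv K t' ≤ Rv K t) →
      Gd κ0 (sl K t) → CcW κ dz (ind (e '' K)))
    (fun j => by
      obtain ⟨δ', hδ', H3⟩ := oneR j ε dz hε dz_pos
      obtain ⟨κ, hκ, H2⟩ := gd_all h0 hδ'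
      obtain ⟨κ', hκ', H4⟩ := H3 κ hκ
      exact ⟨κ', hκ', fun N n e K t hF ht hK => H4 N n e K t hF ht (H2 _ _ hK)⟩)
    (fun j κ κ' hκκ hP N n e K t hF ht hK => (hP N n e K t hF ht hK).mono hκκ) s
  refine ⟨κ2, hκ2, fun N j n K e t hj hc hcv hi ht hK => ⟨hc, hcv, hi, ?_⟩⟩
  have h3 := H2 j hj N n e (e ⁻¹' K) t (cb_pre e hc hcv hi) ht hK
  rwa [image_preimage_eq K e.surjective] at h3

theorem op_sec (s : ℕ) {ε κ0 : ℝ} (hε : 0 < ε) (h0 : 0 < κ0) : ∃ κ : ℝ, 0 < κ ∧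
    ∀ (N j n : ℕ) (K : Set (E n)) (e : (E N × E j) ≃ₗ[ℝ] E n) (t : E j), j ≤ s →
    (∀ t', ε * Rv (e ⁻¹' K) t' ≤ Rv (e ⁻¹' K) t) → Gd κ0 K → Gd κ (sl (e ⁻¹' K) t) := by
  obtain ⟨κ5, hκ5, H8⟩ := min_const (P := fun j κ => ∀ (N n : ℕ) (e : (E N × E j) ≃ₗ[ℝ] E n)
      (K : Set (E N × E j)) (t : E j), CB K → (∀ t', ε * Rv K t' ≤ Rv K t) →
      Gd κ0 (e '' K) → CcW κ dz (ind (sl K t)))
    (fun j => by
      obtain ⟨δ', hδ', H1⟩ := seceR j ε hε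
      obtain ⟨κ, hκ, H2⟩ := gd_all h0 hδ'
      obtain ⟨κ', hκ', H4⟩ := H1 κ dz hκ dz_pos
      exact ⟨κ', hκ', fun N n e K t hF ht hK => H4 N n e K t hF ht (H2 _ _ hK)⟩)
    (fun j κ κ' hκκ hP N n e K t hF ht hK => (hP N n e K t hF ht hK).mono hκκ) s
  refine ⟨κ5, hκ5, fun N j n K e t hj ht hK => ?_⟩
  have hF := cb_pre e hK.comp hK.conv hK.int
  have hv := large_pos hε hF ht
  refine ⟨Pool.Agent.R755.KF.sl_comp hF t, Pool.Agent.R755.KF.sl_conv hF t,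
    Pool.Agent.R755.KF.int_of_vol (Pool.Agent.R755.KF.sl_conv hF t) hv, ?_⟩
  exact H8 j hj N n e (e ⁻¹' K) t hF ht (by rwa [image_preimage_eq K e.surjective])

theorem op_bar (s : ℕ) {κ0 : ℝ} (h0 : 0 < κ0) : ∃ κ : ℝ, 0 < κ ∧
    ∀ (N j n : ℕ) (K : Set (E n)) (e : (E N × E j) ≃ₗ[ℝ] E n) (t : E j), j ≤ s →
    (∀ θ : E j, ∫ z, ⟪z.2, θ⟫_ℝ ∂(un (e ⁻¹' K)) = ⟪t, θ⟫_ℝ) → Gd κ0 K →
    Gd κ (sl (e ⁻¹' K) t) := by
  obtain ⟨κ, hκ, H⟩ := min_const (P := fun j κ => ∀ (N n : ℕ) (K : Set (E n))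
      (e : (E N × E j) ≃ₗ[ℝ] E n) (t : E j),
      (∀ θ : E j, ∫ z, ⟪z.2, θ⟫_ℝ ∂(un (e ⁻¹' K)) = ⟪t, θ⟫_ℝ) → Gd κ0 K →
      Gd κ (sl (e ⁻¹' K) t))
    (fun j => by
      obtain ⟨c, hc, Hb⟩ := Pool.Agent.N483.KM.barR j
      obtain ⟨κ, hκ, H1⟩ := op_sec j (Real.exp_pos (-c)) h0
      refine ⟨κ, hκ, fun N n K e t ht hK => H1 N j n K e t le_rfl (fun t' => ?_) hK⟩
      obtain ⟨h1, h2⟩ := Hb N (e ⁻¹' K) t (cb_pre e hK.comp hK.conv hK.int) ht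
      exact bar_large hc h1 h2 t')
    (fun j κ κ' hκκ hP N n K e t ht hK => (hP N n K e t ht hK).mono hκκ) s
  exact ⟨κ, hκ, fun N j n K e t hj ht hK => H j hj N n K e t ht hK⟩

theorem body_mb {n : ℕ} {κ : ℝ} {K : Set (E n)} (h : Gd κ K) : Pool.Agent.R751.MB.Body K :=
  ⟨h.comp, h.conv, h.int⟩

theorem body_prod {a b n : ℕ} (e : (E a × E b) ≃ₗ[ℝ] E n) {K : Set (E a)} {L : Set (E b)}
    (h1 : IsCompact K) (h2 : Convex ℝ K) (h3 : (interior K).Nonempty) (k1 : IsCompact L)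
    (k2 : Convex ℝ L) (k3 : (interior L).Nonempty) : IsCompact (e '' (K ×ˢ L)) ∧
    Convex ℝ (e '' (K ×ˢ L)) ∧ (interior (e '' (K ×ˢ L))).Nonempty := by
  let e' : (E a × E b) ≃L[ℝ] E n := e.toContinuousLinearEquiv
  have he : (e : E a × E b → E n) = e' := rfl
  refine ⟨?_, (h2.prod k2).is_linear_image e.toLinearMap.isLinear, ?_⟩
  · rw [he]
    exact (h1.prod k1).image e'.continuous
  · have h4 : interior (e' '' (K ×ˢ L)) = e' '' interior (K ×ˢ L) :=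
      (e'.toHomeomorph.image_interior _).symm
    rw [he, h4, interior_prod_eq]
    exact (h3.prod k3).image _

theorem op_prod {κ0 : ℝ} (h0 : 0 < κ0) : ∃ κ : ℝ, 0 < κ ∧ ∀ (a b n : ℕ)
    (e : (E a × E b) ≃ₗ[ℝ] E n) (K : Set (E a)) (L : Set (E b)), Gd κ0 K → Gd κ0 L →
    Gd κ (e '' (K ×ˢ L)) := by
  obtain ⟨κ, hκ, H⟩ := gd_all h0 (half_pos dz_pos)
  refine ⟨κ, hκ, fun a b n e K L hK hL => ?_⟩
  obtain ⟨h1, h2, h3⟩ := body_prod e hK.comp hK.conv hK.int hL.comp hL.conv hL.int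
  refine ⟨h1, h2, h3, ?_⟩
  have h4 := Pool.Agent.R751.MB.prd κ (dz / 2) (dz / 2) a b n e K L (body_mb hK) (body_mb hL)
    (H _ K hK) (H _ L hL)
  rw [add_halves] at h4
  exact h4

theorem op_sum (s : ℕ) {κ0 : ℝ} (h0 : 0 < κ0) : ∃ κ : ℝ, 0 < κ ∧ ∀ (b n : ℕ) (m : Fin b → ℕ)
    (e : (∀ i, E (m i)) ≃ₗ[ℝ] E n) (D : Set (E b)) (K : ∀ i, Set (E (m i))), b ≤ s →
    (∀ i, 1 ≤ m i) → Pool.Agent.R751.MB.UBody D → (∀ i, ∀ x ∈ K i, -x ∈ K i) →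
    (∀ i, Gd κ0 (K i)) → Gd κ (e '' Pool.Agent.R751.MB.dsum D K) := by
  obtain ⟨κ1, hκ1, H1⟩ := min_const (P := fun b κ => ∀ (n : ℕ) (m : Fin b → ℕ)
      (e : (∀ i, E (m i)) ≃ₗ[ℝ] E n) (D : Set (E b)) (K : ∀ i, Set (E (m i))),
      (∀ i, 1 ≤ m i) → Pool.Agent.R751.MB.UBody D → (∀ i, ∀ x ∈ K i, -x ∈ K i) →
      (∀ i, Gd κ0 (K i)) → CcW κ dz (ind (e '' Pool.Agent.R751.MB.dsum D K)))
    (fun b => by
      obtain ⟨δ0, hδ0, H1⟩ := fsuR b dz dz_pos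
      obtain ⟨κ, hκ, H2⟩ := gd_all h0 hδ0
      obtain ⟨κ', hκ', H4⟩ := H1 κ hκ
      exact ⟨κ', hκ', fun n m e D K hm hD hs hK => H4 n m e D K hm hD (fun i => body_mb (hK i)) hs
        fun i => H2 _ _ (hK i)⟩)
    (fun j κ κ' hκκ hP n m e D K hm hD hs hK =>
      Pool.Agent.Y506.PV.CcW.mono hκκ (hP n m e D K hm hD hs hK)) s
  refine ⟨κ1, hκ1, fun b n m e D K hb hm hD hs hK => ?_⟩
  have h := Pool.Agent.R751.MB.dsb b n m e D K hD (fun i => body_mb (hK i)) hs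
  exact ⟨h.comp, h.conv, h.int, H1 b hb n m e D K hm hD hs hK⟩

theorem op_def {s κ0 : ℝ} (hs : 0 < s) (h0 : 0 < κ0) : ∃ κ : ℝ, 0 < κ ∧ ∀ (n : ℕ)
    (K L : Set (E n)), Gd κ0 K → IsCompact L → Convex ℝ L → (interior L).Nonempty →
    volume ((1 / 2 : ℝ) • (K + L)) ^ 2 ≤ ENNReal.ofReal s ^ 2 * (volume K * volume L) →
    Gd κ L := by
  obtain ⟨δ', hδ', H⟩ := bmxR s hs
  obtain ⟨κ, hκ, H2⟩ := gd_all h0 hδ'
  obtain ⟨κ', hκ', H4⟩ := H κ dz hκ dz_pos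
  exact ⟨κ', hκ', fun n K L hK l1 l2 l3 hd => ⟨l1, l2, l3,
    H4 n K L hK.comp hK.conv hK.int l1 l2 l3 hd (H2 _ _ hK)⟩⟩

/-- centred fibrations, the inequality for the base is given -/
theorem op_cent (A : ℝ → ℝ) {Q κ0 : ℝ} (hQ : 0 < Q) (h0 : 0 < κ0) : ∃ κ : ℝ, 0 < κ ∧
    ∀ (N M n : ℕ) (K : Set (E n)) (e : (E N × E M) ≃ₗ[ℝ] E n), IsCompact K → Convex ℝ K →
    (interior K).Nonempty →
    (∀ t, volume (sl (e ⁻¹' K) t) ≠ 0 → Gd κ0 (sl (e ⁻¹' K) t)) →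
    (∀ t, volume (sl (e ⁻¹' K) t) ≠ 0 → ∀ θ : E N, ∫ x, ⟪x, θ⟫_ℝ ∂(un (sl (e ⁻¹' K) t)) = 0) →
    (∃ q : E M → ℝ, QC Q (e ⁻¹' K) q) → (∀ δ : ℝ, 0 < δ → KM (A δ) δ (bl (e ⁻¹' K))) →
    Gd κ K := by
  obtain ⟨δ', hδ', H3⟩ := ccbR dz dz_pos
  obtain ⟨κ', hκ', H5⟩ := gd_all h0 hδ'
  have hA : 0 < max (A δ') 1 := lt_max_of_lt_right one_pos
  obtain ⟨κ3, hκ3, H6⟩ := H3 κ' (max (A δ') 1) Q hκ' hA hQ
  refine ⟨κ3, hκ3, fun N M n K e hc hcv hi hfib hcen hq hb => ⟨hc, hcv, hi, ?_⟩⟩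
  have h3 := H6 N M n e (e ⁻¹' K) (cb_pre e hc hcv hi)
    (fun t ht => ⟨H5 _ _ (hfib t ht), hcen t ht⟩) hq
    (km_mono (le_max_left _ _) le_rfl (hb δ' hδ'))
  rwa [image_preimage_eq K e.surjective] at h3

/-- centred fibrations, the law of the base is the law of an image of a body -/
theorem op_cent' {Q κ0 : ℝ} (hQ : 0 < Q) (h0 : 0 < κ0) : ∃ κ : ℝ, 0 < κ ∧
    ∀ (N M n m : ℕ) (K : Set (E n)) (e : (E N × E M) ≃ₗ[ℝ] E n) (K' : Set (E m))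
    (L : E m →ₗ[ℝ] E M), IsCompact K → Convex ℝ K → (interior K).Nonempty →
    (∀ t, volume (sl (e ⁻¹' K) t) ≠ 0 → Gd κ0 (sl (e ⁻¹' K) t)) →
    (∀ t, volume (sl (e ⁻¹' K) t) ≠ 0 → ∀ θ : E N, ∫ x, ⟪x, θ⟫_ℝ ∂(un (sl (e ⁻¹' K) t)) = 0) →
    (∃ q : E M → ℝ, QC Q (e ⁻¹' K) q) → Gd κ0 K' → bl (e ⁻¹' K) = Measure.map L (un K') →
    Gd κ K := by
  obtain ⟨A, hA, HK⟩ := km_of_gd h0
  obtain ⟨κ, hκ, H⟩ := op_cent A hQ h0
  refine ⟨κ, hκ, fun N M n m K e K' L hc hcv hi hfib hcen hq hK' hb =>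
    H N M n K e hc hcv hi hfib hcen hq fun δ hδ => ?_⟩
  rw [hb]
  exact km_map (HK m K' hK' δ hδ) L

/-- bodies dominated by the law of a linear image -/
theorem op_dom : ∃ ε : ℝ, 0 < ε ∧ ε < 1 ∧ ∀ M κ0 : ℝ, 1 ≤ M → 0 < κ0 → ∃ κ : ℝ, 0 < κ ∧
    ∀ (m n : ℕ) (K : Set (E m)) (P F : Set (E n)) (T : E m →ₗ[ℝ] E n) (c : E n),
    Function.Surjective T → Gd κ0 K → IsCompact P → Convex ℝ P → (interior P).Nonempty →
    MeasurableSet F → volume F ≤ ENNReal.ofReal ε * volume P →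
    (volume P)⁻¹ • volume.restrict (P \ F) ≤
      ENNReal.ofReal M • Measure.map (fun x => c + T x) (un K) → Gd κ P := by
  have hd := dz_pos
  obtain ⟨ε, hε⟩ : ∃ ε : ℝ, ε = min (dz / 8) (1 / 2) := ⟨_, rfl⟩
  have h1 : 0 < ε := by rw [hε]; exact lt_min (by positivity) (by norm_num)
  have h2 : ε ≤ dz / 8 := by rw [hε]; exact min_le_left _ _
  have h3 : ε < 1 := by rw [hε]; exact (min_le_right _ _).trans_lt (by norm_num)
  refine ⟨ε, h1, h3, fun M κ0 hM h0 => ?_⟩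
  have hM0 : 0 < M := by linarith
  have h4 : 0 < 1 - ε := by linarith
  obtain ⟨κ, hκ, H⟩ := gd_all h0 (show 0 < (1 - ε) / M * (dz / 2) by positivity)
  have hC : 0 < Pool.Agent.Q184.NB.CC ((1 - ε) / M) :=
    Pool.Agent.Q184.NB.CC_pos (by rw [div_le_one hM0]; linarith)
  have h5 := Real.sqrt_pos.2 hC
  have h6 := Real.sqrt_pos.2 h4
  refine ⟨κ / Real.sqrt (Pool.Agent.Q184.NB.CC ((1 - ε) / M)) * Real.sqrt (1 - ε), by positivity,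
    fun m n K P F T c hT hK hPc hPv hPi hF hFv hdom => ⟨hPc, hPv, hPi, ?_⟩⟩
  have h7 := dom_core h1 h3 hM T c hT hK.comp hK.conv hK.int hPc hPi hF hFv hdom
    (half_pos hd).le (H m K hK)
  exact ccw_mono h7 (by linarith)

/-- the isoperimetric inequality -/
theorem star_of {κ0 : ℝ} (h0 : 0 < κ0) : ∃ c : ℝ, 0 < c ∧ ∀ (n : ℕ) (K : Set (E n)), Gd κ0 K →
    Star c (ind K) := by
  obtain ⟨κ, hκ, H⟩ := gd_all h0 (show (0 : ℝ) < 1 / 25 by norm_num)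
  obtain ⟨c, hc, H'⟩ := Pool.Agent.Y506.PV.stb Pool.Agent.Y211.PV.iso κ hκ
  exact ⟨c, hc, fun n K hK => H' n K hK.comp hK.conv hK.int (H n K hK)⟩

end Pool.Agent.H59.KJ
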