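import Pool.Agent.H59.KJ.Ops

/-!
# Bodies of particles
-/

set_option autoImplicit false

namespace Pool.Agent.H59.KJ

open MeasureTheory Set Filter Topology
open scoped ENNReal InnerProductSpace Pointwise
open Pool.Agent.R754.KG (E min_const)
open Pool.Agent.Y506.PV (CcW ind)
open Pool.Agent.R751.MB (Conf S_PAR)

/-- invariance under the permutations of the particles within their species -/
def PInv {N d q : ℕ} (b : Fin N → Fin q) (K : Set (Conf N d)) : Prop :=
  ∀ σ : Equiv.Perm (Fin N), (∀ i, b (σ i) = b i) → ∀ x y : Conf N d,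
    (∀ i α, y (i, α) = x (σ i, α)) → x ∈ K → y ∈ K

theorem gd_par (hPAR : S_PAR) (s : ℕ) : ∃ κ : ℝ, 0 < κ ∧ ∀ (N d q n : ℕ) (b : Fin N → Fin q)
    (e : Conf N d ≃ₗ[ℝ] E n) (K : Set (Conf N d)), 1 ≤ N → 1 ≤ d → d ≤ s → q ≤ s →
    Function.Surjective b → IsCompact K → Convex ℝ K → (interior K).Nonempty → PInv b K →
    Gd κ (e '' K) := by
  obtain ⟨κ, hκ, H⟩ := min_const (P := fun d κ => ∀ q, q ≤ s → ∀ (N n : ℕ) (b : Fin N → Fin q)
      (e : Conf N d ≃ₗ[ℝ] E n) (K : Set (Conf N d)), 1 ≤ N → 1 ≤ d →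
      Function.Surjective b → Pool.Agent.R751.MB.Body K → PInv b K → CcW κ dz (ind (e '' K)))
    (fun d => by
      by_cases hd : 1 ≤ d
      · obtain ⟨κ, hκ, H⟩ := min_const (P := fun q κ => ∀ (N n : ℕ) (b : Fin N → Fin q)
          (e : Conf N d ≃ₗ[ℝ] E n) (K : Set (Conf N d)), 1 ≤ N →
          Function.Surjective b → Pool.Agent.R751.MB.Body K → PInv b K →
          CcW κ dz (ind (e '' K)))
          (fun q => hPAR d q dz dz_pos hd)
          (fun q κ κ' hκκ hP N n b e K hN hb hK hinv =>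
            Pool.Agent.Y506.PV.CcW.mono hκκ (hP N n b e K hN hb hK hinv)) s
        exact ⟨κ, hκ, fun q hq N n b e K hN _ hb hK hinv => H q hq N n b e K hN hb hK hinv⟩
      · exact ⟨1, one_pos, fun q hq N n b e K hN hd' => absurd hd' hd⟩)
    (fun d κ κ' hκκ hP q hq N n b e K hN hd hb hK hinv =>
      Pool.Agent.Y506.PV.CcW.mono hκκ (hP q hq N n b e K hN hd hb hK hinv)) s
  refine ⟨κ, hκ, fun N d q n b e K hN hd hds hqs hb k1 k2 k3 hinv => ?_⟩
  have hc : Continuous e := e.toLinearMap.continuous_of_finiteDimensional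
  have hop : IsOpen (e '' interior K) :=
    e.toContinuousLinearEquiv.toHomeomorph.isOpenMap _ isOpen_interior
  exact ⟨k1.image hc, k2.linear_image e.toLinearMap,
    (k3.image e).mono (interior_maximal (image_mono interior_subset) hop),
    H d hds q hqs N n b e K hN hd hb ⟨k1, k2, k3⟩ hinv⟩

end Pool.Agent.H59.KJ
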